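import Pool.Agent.Lib_helper58.SP.One

/-! The one-dimensional theorem, second part. -/

namespace Pool.Agent.SP

open MeasureTheory Set Filter Topology ComplexConjugate

variable {ι : Type*} {lam : ι → ℝ} {c c' : ι → ℝ → ℂ} {G : ℝ → ℂ} {A C : ℝ}

theorem sin_ge {θ : ℝ} (h : θ ∈ II) : θ / 2 ≤ Real.sin θ := by
  have h1 := Real.mul_le_sin h.1.le h.2.le
  have h2 : (1 : ℝ) / 2 ≤ 2 / Real.pi := by
    rw [div_le_div_iff₀ two_pos Real.pi_pos]
    linarith [Real.pi_lt_four]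
  nlinarith [h.1]

/-- `|f_s/sin²| ≤ 16 θ^(σ-2)` for `1/2 ≤ σ ≤ Re s`, `σ ≤ 2`. -/
theorem ff_div_bound2 {θ : ℝ} (h : θ ∈ II) {s : ℂ} {σ : ℝ} (hσ : 1 / 2 ≤ σ) (hσ2 : σ ≤ 2) (hs : σ ≤ s.re) :
    ‖ff s θ / ((Real.sin θ : ℝ) : ℂ) ^ 2‖ ≤ 16 * θ ^ (σ - 2) := by
  have hs0 : 0 < s.re := by linarith
  have hS := sin_pos' h
  rw [norm_div, norm_pow, Complex.norm_real, Real.norm_eq_abs, abs_of_pos hS, div_le_iff₀ (by positivity)]
  have h1 : Real.sin θ ^ s.re ≤ Real.sin θ ^ σ := Real.rpow_le_rpow_of_exponent_ge hS (Real.sin_le_one θ) hs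
  have h2 : Real.sin θ ^ (σ - 2) ≤ 4 * θ ^ (σ - 2) := by
    calc Real.sin θ ^ (σ - 2) ≤ (θ / 2) ^ (σ - 2) :=
          Real.rpow_le_rpow_of_nonpos (by linarith [h.1]) (sin_ge h) (by linarith)
      _ = (1 / 2) ^ (σ - 2) * θ ^ (σ - 2) := by
          rw [← Real.mul_rpow (by norm_num) h.1.le]
          congr 1
          ring
      _ ≤ 4 * θ ^ (σ - 2) := by
          refine mul_le_mul_of_nonneg_right ?_ (Real.rpow_nonneg h.1.le _)
          rw [one_div, Real.inv_rpow (by norm_num), ← Real.rpow_neg (by norm_num)]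
          calc (2 : ℝ) ^ (-(σ - 2)) ≤ 2 ^ (2 : ℝ) := Real.rpow_le_rpow_of_exponent_le (by norm_num) (by linarith)
            _ = 4 := by norm_num
  have h3 : 2 / s.re ≤ 4 := by
    rw [div_le_iff₀ hs0]
    linarith
  calc ‖ff s θ‖ ≤ 2 / s.re * Real.sin θ ^ s.re := ff_norm_le h hs0
    _ ≤ 4 * Real.sin θ ^ σ := by gcongr
    _ = 4 * (Real.sin θ ^ (σ - 2) * Real.sin θ ^ 2) := by
        rw [← Real.rpow_natCast (Real.sin θ) 2, ← Real.rpow_add hS]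
        norm_num
    _ ≤ 4 * ((4 * θ ^ (σ - 2)) * Real.sin θ ^ 2) := by gcongr
    _ = 16 * θ ^ (σ - 2) * Real.sin θ ^ 2 := by ring

theorem JF_bound {θ : ℝ} (h : θ ∈ II) {s : ℂ} {σ : ℝ} (hσ : 1 / 2 ≤ σ) (hσ2 : σ ≤ 2) (hs : σ ≤ s.re) (g : ℂ) :
    ‖ff s θ * g / ((Real.sin θ : ℝ) : ℂ) ^ 2‖ ≤ 16 * θ ^ (σ - 2) * ‖g‖ := by
  have h1 : ff s θ * g / ((Real.sin θ : ℝ) : ℂ) ^ 2 = ff s θ / ((Real.sin θ : ℝ) : ℂ) ^ 2 * g := by ring
  rw [h1, norm_mul]
  exact mul_le_mul_of_nonneg_right (ff_div_bound2 h hσ hσ2 hs) (norm_nonneg _)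

/-- a function which is `o(θ^(1/2))` and continuous on `(0, π/2)` is bounded by `K θ^(1/2)` on `(0, θ₀)` -/
theorem G_bound (hc : ContinuousOn G II) (ho : G =o[𝓝[>] 0] (fun θ => θ ^ (1 / 2 : ℝ)))
    {θ₀ : ℝ} (h0 : θ₀ ∈ II) {ε : ℝ} (hε : 0 < ε) :
    ∃ K, 0 ≤ K ∧ ∃ θ₁ > 0, θ₁ < θ₀ ∧ (∀ θ ∈ Ioo 0 θ₁, ‖G θ‖ ≤ ε * θ ^ (1 / 2 : ℝ)) ∧
      (∀ θ ∈ Icc θ₁ θ₀, ‖G θ‖ ≤ K) := by
  have h1 := ho.def hε
  obtain ⟨u, hu, hb⟩ := (eventually_nhdsWithin_iff.mp h1).exists_mem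
  obtain ⟨δ, hδ, hball⟩ := Metric.mem_nhds_iff.mp hu
  set θ₁ := min (δ / 2) (θ₀ / 2) with hθ₁
  have hp : 0 < θ₁ := lt_min (by linarith) (by linarith [h0.1])
  have hlt : θ₁ < θ₀ := (min_le_right _ _).trans_lt (by linarith [h0.1])
  have hcomp : IsCompact (Icc θ₁ θ₀) := isCompact_Icc
  have hsub : Icc θ₁ θ₀ ⊆ II := fun θ h => ⟨hp.trans_le h.1, h.2.trans_lt h0.2⟩
  obtain ⟨K, hK⟩ := hcomp.exists_bound_of_continuousOn (hc.mono hsub)
  refine ⟨K, ?_, θ₁, hp, hlt, ?_, hK⟩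
  · exact (norm_nonneg _).trans (hK θ₁ ⟨le_rfl, hlt.le⟩)
  · intro θ h
    have h2 : θ ∈ u := hball (by
      rw [Metric.mem_ball, Real.dist_eq, sub_zero, abs_of_pos h.1]
      calc θ < θ₁ := h.2
        _ ≤ δ / 2 := min_le_left _ _
        _ < δ := by linarith)
    have h3 := hb θ h2 h.1
    rwa [Real.norm_eq_abs, abs_of_nonneg (Real.rpow_nonneg h.1.le _)] at h3

theorem G_bound' (hc : ContinuousOn G II) (ho : G =o[𝓝[>] 0] (fun θ => θ ^ (1 / 2 : ℝ)))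
    {θ₀ : ℝ} (h0 : θ₀ ∈ II) : ∃ K, 0 ≤ K ∧ ∀ θ ∈ Ioo 0 θ₀, ‖G θ‖ ≤ K * θ ^ (1 / 2 : ℝ) := by
  obtain ⟨K, hK0, θ₁, hp, hlt, hb1, hb2⟩ := G_bound hc ho h0 one_pos
  have hp' : 0 < θ₁ ^ (1 / 2 : ℝ) := Real.rpow_pos_of_pos hp _
  refine ⟨1 + K / θ₁ ^ (1 / 2 : ℝ), by positivity, fun θ h => ?_⟩
  have hθ : 0 ≤ θ ^ (1 / 2 : ℝ) := Real.rpow_nonneg h.1.le _
  by_cases h1 : θ < θ₁
  · refine (hb1 θ ⟨h.1, h1⟩).trans ?_
    have : 0 ≤ K / θ₁ ^ (1 / 2 : ℝ) := by positivity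
    nlinarith
  · push Not at h1
    refine (hb2 θ ⟨h1, h.2.le⟩).trans ?_
    have h2 : θ₁ ^ (1 / 2 : ℝ) ≤ θ ^ (1 / 2 : ℝ) := Real.rpow_le_rpow hp.le h1 (by norm_num)
    calc K = K / θ₁ ^ (1 / 2 : ℝ) * θ₁ ^ (1 / 2 : ℝ) := by field_simp
      _ ≤ K / θ₁ ^ (1 / 2 : ℝ) * θ ^ (1 / 2 : ℝ) := by gcongr
      _ ≤ _ := by nlinarith

theorem integ_rpow {a θ₀ : ℝ} (ha : -1 < a) (h0 : 0 < θ₀) : IntegrableOn (fun θ : ℝ => θ ^ a) (Ioo 0 θ₀) := by
  have := intervalIntegral.intervalIntegrable_rpow' (a := 0) (b := θ₀) ha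
  rwa [intervalIntegrable_iff_integrableOn_Ioo_of_le h0.le] at this

/-- the integral transform is holomorphic on the quadrant -/
theorem diff_J (hc : ContinuousOn G II) (ho : G =o[𝓝[>] 0] (fun θ => θ ^ (1 / 2 : ℝ)))
    {θ₀ : ℝ} (h0 : θ₀ ∈ II) :
    DifferentiableOn ℂ (fun s => ∫ θ in Ioo 0 θ₀, ff s θ * G θ / ((Real.sin θ : ℝ) : ℂ) ^ 2) QQ := by
  obtain ⟨K, hK0, hK⟩ := G_bound' hc ho h0
  refine hol_int (volume.restrict (Ioo 0 θ₀)) (fun s θ => ff s θ * G θ / ((Real.sin θ : ℝ) : ℂ) ^ 2) QQ ?_ ?_ ?_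
  · intro s hs
    refine ContinuousOn.aestronglyMeasurable ?_ measurableSet_Ioo
    refine ContinuousOn.mono ?_ (fun θ h => sub_II h0 h)
    refine ((cont_ff (by linarith [hs.1])).mul hc).div cont_sin2 (fun θ h => ?_)
    have hS : ((Real.sin θ : ℝ) : ℂ) ≠ 0 := by exact_mod_cast (sin_pos' h).ne'
    positivity
  · refine (ae_restrict_iff' measurableSet_Ioo).mpr (ae_of_all _ fun θ h => ?_)
    have hII := sub_II h0 h
    have h1 : DifferentiableOn ℂ (fun s => ff s θ) QQ := (ff_diff hII).mono (fun s hs => by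
      have := hs.1
      show 0 < s.re
      linarith)
    exact (h1.mul_const _).div_const _
  · intro s hs
    set r := (s.re - 1 / 2) / 2 with hr
    have hr0 : 0 < r := by rw [hr]; linarith [hs.1]
    set r' := min r s.im with hr'
    have hr'0 : 0 < r' := lt_min hr0 hs.2
    set σ := min (s.re - r) 1 with hσ
    have hσ1 : 1 / 2 < σ := lt_min (by rw [hr]; linarith [hs.1]) (by norm_num)
    have hre : ∀ z ∈ Metric.ball s r', s.re - r < z.re ∧ 0 < z.im := by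
      intro z hz
      rw [Metric.mem_ball, dist_eq_norm] at hz
      have h1 := (Complex.abs_re_le_norm (z - s)).trans_lt hz
      have h2 := (Complex.abs_im_le_norm (z - s)).trans_lt hz
      rw [Complex.sub_re] at h1
      rw [Complex.sub_im] at h2
      have h3 := (abs_lt.mp h1).1
      have h4 := (abs_lt.mp h2).1
      have h5 := min_le_left r s.im
      have h6 := min_le_right r s.im
      constructor <;> linarith
    refine ⟨r', hr'0, fun z hz => ?_, fun θ => 16 * K * θ ^ (σ - 3 / 2), ?_, ?_⟩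
    · have := hre z hz
      refine ⟨?_, this.2⟩
      have h7 : s.re - r = 1 / 2 + r := by rw [hr]; ring
      linarith [this.1]
    · exact (integ_rpow (by linarith) h0.1).const_mul _
    · refine (ae_restrict_iff' measurableSet_Ioo).mpr (ae_of_all _ fun θ h z hz => ?_)
      have hII := sub_II h0 h
      have h8 : σ ≤ z.re := (min_le_left _ _).trans (hre z hz).1.le
      refine (JF_bound hII hσ1.le ((min_le_right _ _).trans (by norm_num)) h8 (G θ)).trans ?_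
      calc 16 * θ ^ (σ - 2) * ‖G θ‖ ≤ 16 * θ ^ (σ - 2) * (K * θ ^ (1 / 2 : ℝ)) := by
            have := hK θ h
            have := Real.rpow_nonneg h.1.le (σ - 2)
            gcongr
        _ = 16 * K * (θ ^ (σ - 2) * θ ^ (1 / 2 : ℝ)) := by ring
        _ = 16 * K * θ ^ (σ - 3 / 2) := by
            rw [← Real.rpow_add h.1]
            congr 2
            ring

theorem SolFam.identity [Countable ι] (H : SolFam lam c c' G A C) (ho : G =o[𝓝[>] 0] (fun θ => θ ^ (1 / 2 : ℝ)))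
    {θ₀ : ℝ} (h0 : θ₀ ∈ II) {s : ℂ} (hs : s ∈ QQ) :
    ∑' i, ww c c' i s θ₀ / ((lam i : ℂ) - s * (1 - s))
      = ∫ θ in Ioo 0 θ₀, ff s θ * G θ / ((Real.sin θ : ℝ) : ℂ) ^ 2 := by
  have hL := (H.diff_L h0).analyticOnNhd QQ_open
  have hJ := (diff_J H.cG ho h0).analyticOnNhd QQ_open
  set z₀ : ℂ := ((A + 3 : ℝ) : ℂ) + Complex.I with hz₀
  have hz1 : z₀.re = A + 3 := by rw [hz₀]; simp
  have hz2 : z₀.im = 1 := by rw [hz₀]; simp
  have hzQ : z₀ ∈ QQ := ⟨by rw [hz1]; linarith [H.A0], by rw [hz2]; norm_num⟩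
  refine hL.eqOn_of_preconnected_of_eventuallyEq hJ QQ_conn hzQ ?_ hs
  have hopen : IsOpen {s : ℂ | A + 2 < s.re ∧ 0 < s.im} :=
    (isOpen_lt continuous_const Complex.continuous_re).inter (isOpen_lt continuous_const Complex.continuous_im)
  filter_upwards [hopen.mem_nhds (show z₀ ∈ {s : ℂ | A + 2 < s.re ∧ 0 < s.im} from
    ⟨by rw [hz1]; linarith, by rw [hz2]; norm_num⟩)] with s hs
  exact H.sum_eq h0 hs.1.le hs.2

/-- the point `1/2 + η + iκ` -/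
noncomputable def pt (κ η : ℝ) : ℂ := ((1 / 2 + η : ℝ) : ℂ) + Complex.I * κ

theorem pt_re (κ η : ℝ) : (pt κ η).re = 1 / 2 + η := by simp [pt]
theorem pt_im (κ η : ℝ) : (pt κ η).im = κ := by simp [pt]

theorem lim_J (hc : ContinuousOn G II) (ho : G =o[𝓝[>] 0] (fun θ => θ ^ (1 / 2 : ℝ)))
    {θ₀ : ℝ} (h0 : θ₀ ∈ II) (κ : ℝ) :
    Tendsto (fun η : ℝ => (η : ℂ) * ∫ θ in Ioo 0 θ₀, ff (pt κ η) θ * G θ / ((Real.sin θ : ℝ) : ℂ) ^ 2)
      (𝓝[>] 0) (𝓝 0) := by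
  rw [Metric.tendsto_nhdsWithin_nhds]
  intro ε hε
  obtain ⟨K, hK0, θ₁, hp, hlt, hb1, hb2⟩ := G_bound hc ho h0 (show (0 : ℝ) < ε / 128 by positivity)
  set M : ℝ := 16 * ((θ₁ ^ (-(3 / 2) : ℝ) + 1) * K) * 2 with hM
  have hM0 : 0 ≤ M := by
    have := Real.rpow_nonneg hp.le (-(3 / 2) : ℝ)
    rw [hM]
    positivity
  refine ⟨min (1 / 2) (ε / (2 * (M + 1))), lt_min (by norm_num) (by positivity), fun η hη hd => ?_⟩
  have hη0 : (0 : ℝ) < η := hη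
  rw [Real.dist_eq, sub_zero, abs_of_pos hη0] at hd
  have hη1 : η < 1 / 2 := hd.trans_le (min_le_left _ _)
  have hη2 : η < ε / (2 * (M + 1)) := hd.trans_le (min_le_right _ _)
  have hbound : ∀ θ ∈ Ioo 0 θ₀, ‖ff (pt κ η) θ * G θ / ((Real.sin θ : ℝ) : ℂ) ^ 2‖
      ≤ ε / 8 * θ ^ (η - 1) + M / 2 := by
    intro θ h
    have hII := sub_II h0 h
    have h1 := JF_bound hII (s := pt κ η) (σ := 1 / 2 + η) (by linarith) (by linarith) (pt_re κ η).ge (G θ)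
    refine h1.trans ?_
    have hpos : 0 ≤ θ ^ (1 / 2 + η - 2) := Real.rpow_nonneg h.1.le _
    by_cases h2 : θ < θ₁
    · calc 16 * θ ^ (1 / 2 + η - 2) * ‖G θ‖ ≤ 16 * θ ^ (1 / 2 + η - 2) * (ε / 128 * θ ^ (1 / 2 : ℝ)) := by
            have := hb1 θ ⟨h.1, h2⟩
            gcongr
        _ = ε / 8 * (θ ^ (1 / 2 + η - 2) * θ ^ (1 / 2 : ℝ)) := by ring
        _ = ε / 8 * θ ^ (η - 1) := by
            rw [← Real.rpow_add h.1]
            congr 2
            ring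
        _ ≤ _ := by linarith
    · push Not at h2
      have h3 := hb2 θ ⟨h2, h.2.le⟩
      have h4 : θ ^ (1 / 2 + η - 2) ≤ θ₁ ^ (-(3 / 2) : ℝ) + 1 := by
        by_cases h5 : θ ≤ 1
        · calc θ ^ (1 / 2 + η - 2) ≤ θ ^ (-(3 / 2) : ℝ) :=
                Real.rpow_le_rpow_of_exponent_ge h.1 h5 (by linarith)
            _ ≤ θ₁ ^ (-(3 / 2) : ℝ) := Real.rpow_le_rpow_of_nonpos hp h2 (by norm_num)
            _ ≤ _ := by linarith
        · push Not at h5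
          calc θ ^ (1 / 2 + η - 2) ≤ 1 := Real.rpow_le_one_of_one_le_of_nonpos h5.le (by linarith)
            _ ≤ _ := by linarith [Real.rpow_nonneg hp.le (-(3 / 2) : ℝ)]
      have h6 : 0 ≤ ε / 8 * θ ^ (η - 1) := by
        have := Real.rpow_nonneg h.1.le (η - 1)
        positivity
      calc 16 * θ ^ (1 / 2 + η - 2) * ‖G θ‖ ≤ 16 * (θ₁ ^ (-(3 / 2) : ℝ) + 1) * K := by gcongr
        _ = M / 2 := by rw [hM]; ring
        _ ≤ _ := by linarith
  have hint : IntegrableOn (fun θ : ℝ => ε / 8 * θ ^ (η - 1) + M / 2) (Ioo 0 θ₀) :=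
    ((integ_rpow (by linarith) h0.1).const_mul _).add (integrableOn_const (by simp))
  have hval : ∫ θ in Ioo 0 θ₀, (ε / 8 * θ ^ (η - 1) + M / 2) = ε / 8 * (θ₀ ^ η / η) + θ₀ * (M / 2) := by
    rw [integral_add ((integ_rpow (by linarith) h0.1).const_mul _) (integrableOn_const (by simp)),
      integral_const_mul, setIntegral_const, ← integral_Ioc_eq_integral_Ioo,
      ← intervalIntegral.integral_of_le h0.1.le, integral_rpow (Or.inl (by linarith))]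
    simp only [sub_add_cancel, smul_eq_mul]
    rw [Real.zero_rpow hη0.ne', sub_zero]
    congr 2
    simp [h0.1.le]
  have hJ : ‖∫ θ in Ioo 0 θ₀, ff (pt κ η) θ * G θ / ((Real.sin θ : ℝ) : ℂ) ^ 2‖
      ≤ ε / 8 * (θ₀ ^ η / η) + θ₀ * (M / 2) := by
    rw [← hval]
    exact norm_integral_le_of_norm_le hint ((ae_restrict_iff' measurableSet_Ioo).mpr (ae_of_all _ hbound))
  rw [dist_zero_right, norm_mul, Complex.norm_real, Real.norm_eq_abs, abs_of_pos hη0]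
  have h7 : θ₀ ^ η ≤ 2 := by
    calc θ₀ ^ η ≤ 2 ^ η := Real.rpow_le_rpow h0.1.le (lt_two h0).le hη0.le
      _ ≤ 2 ^ (1 : ℝ) := Real.rpow_le_rpow_of_exponent_le (by norm_num) (by linarith)
      _ = 2 := Real.rpow_one 2
  have h8 : η * (M + 1) < ε / 2 := by
    have := (lt_div_iff₀ (by positivity)).mp hη2
    linarith
  calc η * ‖∫ θ in Ioo 0 θ₀, ff (pt κ η) θ * G θ / ((Real.sin θ : ℝ) : ℂ) ^ 2‖
      ≤ η * (ε / 8 * (θ₀ ^ η / η) + θ₀ * (M / 2)) := by gcongr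
    _ = ε / 8 * θ₀ ^ η + η * (θ₀ * (M / 2)) := by field_simp
    _ ≤ ε / 8 * 2 + η * (2 * (M / 2)) := by
        have := (lt_two h0).le
        gcongr
    _ < ε := by nlinarith

theorem den_pt (κ η l : ℝ) : (l : ℂ) - pt κ η * (1 - pt κ η)
    = ((l - 1 / 4 - κ ^ 2 + η ^ 2 : ℝ) : ℂ) + 2 * η * κ * Complex.I := by
  unfold pt
  push_cast
  ring_nf
  rw [Complex.I_sq]
  ring

theorem norm_den_pt (κ η l : ℝ) :
    2 * η * κ ≤ ‖(l : ℂ) - pt κ η * (1 - pt κ η)‖ := by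
  have := den_ge (s := pt κ η) l
  rw [pt_re, pt_im] at this
  linarith

theorem pt_tendsto (κ : ℝ) : Tendsto (fun η : ℝ => pt κ η) (𝓝[>] 0) (𝓝 (pt κ 0)) := by
  have h1 : Continuous (fun η : ℝ => pt κ η) := by unfold pt; fun_prop
  exact (h1.tendsto 0).mono_left nhdsWithin_le_nhds

/-- the limit of `η` times the left hand side -/
theorem SolFam.lim_L (H : SolFam lam c c' G A C) {θ₀ : ℝ} (h0 : θ₀ ∈ II) {κ : ℝ} (hκ : 0 < κ) :
    Tendsto (fun η : ℝ => (η : ℂ) * ∑' i, ww c c' i (pt κ η) θ₀ / ((lam i : ℂ) - pt κ η * (1 - pt κ η)))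
      (𝓝[>] 0) (𝓝 (∑' i, if lam i = 1 / 4 + κ ^ 2 then ww c c' i (pt κ 0) θ₀ / (2 * κ * Complex.I) else 0)) := by
  have hS := sin_pos' h0
  have hev : ∀ᶠ η in 𝓝[>] (0 : ℝ), η ∈ Ioo (0 : ℝ) 1 := Ioo_mem_nhdsGT one_pos
  simp_rw [← tsum_mul_left]
  have hff : Tendsto (fun η : ℝ => ff (pt κ η) θ₀) (𝓝[>] 0) (𝓝 (ff (pt κ 0) θ₀)) := by
    have h1 : ContinuousAt (fun s => ff s θ₀) (pt κ 0) :=
      ((ff_diff h0).differentiableAt ((isOpen_lt continuous_const Complex.continuous_re).mem_nhds (by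
        show 0 < (pt κ 0).re
        rw [pt_re]; norm_num))).continuousAt
    exact h1.tendsto.comp (pt_tendsto κ)
  have hfp : Tendsto (fun η : ℝ => fp (pt κ η) θ₀) (𝓝[>] 0) (𝓝 (fp (pt κ 0) θ₀)) := by
    have h1 : ContinuousAt (fun s => fp s θ₀) (pt κ 0) :=
      ((fp_diff h0).differentiableAt ((isOpen_lt continuous_const Complex.continuous_re).mem_nhds (by
        show 0 < (pt κ 0).re
        rw [pt_re]; norm_num))).continuousAt
    exact h1.tendsto.comp (pt_tendsto κ)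
  refine tendsto_tsum_of_dominated_convergence
    (bound := fun i => (((2 + κ) * (4 * (1 / Real.sin θ₀))) * ‖c i θ₀‖ + 4 * ‖c' i θ₀‖) / (2 * κ)) ?_ ?_ ?_
  · exact (((H.s1 θ₀ h0).mul_left _).add ((H.s2 θ₀ h0).mul_left _)).div_const _
  · intro i
    have hw : Tendsto (fun η : ℝ => ww c c' i (pt κ η) θ₀) (𝓝[>] 0) (𝓝 (ww c c' i (pt κ 0) θ₀)) :=
      (hfp.mul_const _).sub (hff.mul_const _)
    have hη0 : Tendsto (fun η : ℝ => (η : ℂ)) (𝓝[>] 0) (𝓝 0) := by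
      have h1 : Tendsto (fun η : ℝ => (η : ℂ)) (𝓝 0) (𝓝 ((0 : ℝ) : ℂ)) := Complex.continuous_ofReal.tendsto 0
      rw [Complex.ofReal_zero] at h1
      exact h1.mono_left nhdsWithin_le_nhds
    have hκc : (κ : ℂ) ≠ 0 := by exact_mod_cast hκ.ne'
    by_cases hl : lam i = 1 / 4 + κ ^ 2
    · rw [if_pos hl]
      have h2 : Tendsto (fun η : ℝ => ww c c' i (pt κ η) θ₀ / ((η : ℂ) + 2 * κ * Complex.I)) (𝓝[>] 0)
          (𝓝 (ww c c' i (pt κ 0) θ₀ / (0 + 2 * κ * Complex.I))) := by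
        refine hw.div (hη0.add_const _) ?_
        rw [zero_add]
        exact mul_ne_zero (mul_ne_zero two_ne_zero hκc) Complex.I_ne_zero
      rw [zero_add] at h2
      refine h2.congr' ?_
      filter_upwards [hev] with η hη
      have hηc : (η : ℂ) ≠ 0 := by exact_mod_cast hη.1.ne'
      rw [den_pt, hl]
      have h3 : ((1 / 4 + κ ^ 2 - 1 / 4 - κ ^ 2 + η ^ 2 : ℝ) : ℂ) + 2 * η * κ * Complex.I
          = η * ((η : ℂ) + 2 * κ * Complex.I) := by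
        push_cast
        ring
      rw [h3, ← mul_div_assoc, mul_div_mul_left _ _ hηc]
    · rw [if_neg hl]
      have hne : ((lam i - 1 / 4 - κ ^ 2 : ℝ) : ℂ) ≠ 0 := by
        have : lam i - 1 / 4 - κ ^ 2 ≠ 0 := fun h => hl (by linarith)
        exact_mod_cast this
      have h2 : Tendsto (fun η : ℝ => (η : ℂ) * (ww c c' i (pt κ η) θ₀
          / (((lam i - 1 / 4 - κ ^ 2 : ℝ) : ℂ) + (η : ℂ) ^ 2 + 2 * η * κ * Complex.I))) (𝓝[>] 0)
          (𝓝 (0 * (ww c c' i (pt κ 0) θ₀ / (((lam i - 1 / 4 - κ ^ 2 : ℝ) : ℂ) + 0 ^ 2 + 2 * 0 * κ * Complex.I)))) := by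
        refine hη0.mul (hw.div ?_ (by simpa using hne))
        exact ((tendsto_const_nhds.add (hη0.pow 2)).add (((hη0.const_mul 2).mul_const _).mul_const _))
      rw [zero_mul] at h2
      refine h2.congr (fun η => ?_)
      rw [den_pt]
      congr 2
      push_cast
      ring
  · filter_upwards [hev] with η hη i
    have hz0 : 0 < (pt κ η).re := by rw [pt_re]; linarith [hη.1]
    have hr : 2 / (pt κ η).re ≤ 4 := by
      rw [div_le_iff₀ hz0, pt_re]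
      linarith [hη.1]
    have hsr : Real.sin θ₀ ^ (pt κ η).re ≤ 1 := Real.rpow_le_one hS.le (Real.sin_le_one _) hz0.le
    have hsr0 : 0 ≤ Real.sin θ₀ ^ (pt κ η).re := Real.rpow_nonneg hS.le _
    have hn : ‖pt κ η‖ ≤ 2 + κ := by
      unfold pt
      calc _ ≤ ‖((1 / 2 + η : ℝ) : ℂ)‖ + ‖Complex.I * κ‖ := norm_add_le _ _
        _ = (1 / 2 + η) + κ := by
            rw [norm_mul, Complex.norm_I, one_mul, Complex.norm_real, Complex.norm_real, Real.norm_eq_abs,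
              Real.norm_eq_abs, abs_of_pos hκ, abs_of_pos (by linarith [hη.1])]
        _ ≤ _ := by linarith [hη.2]
    have e1 : ‖ff (pt κ η) θ₀‖ ≤ 4 := by
      calc ‖ff (pt κ η) θ₀‖ ≤ 2 / (pt κ η).re * Real.sin θ₀ ^ (pt κ η).re := ff_norm_le h0 hz0
        _ ≤ 4 * 1 := by gcongr
        _ = 4 := by norm_num
    have e2 : ‖fp (pt κ η) θ₀‖ ≤ (2 + κ) * (4 * (1 / Real.sin θ₀)) := by
      calc ‖fp (pt κ η) θ₀‖ ≤ ‖pt κ η‖ * (2 / (pt κ η).re) * (Real.sin θ₀ ^ (pt κ η).re / Real.sin θ₀) :=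
            fp_norm_le h0 hz0
        _ ≤ (2 + κ) * 4 * (1 / Real.sin θ₀) := by gcongr
        _ = _ := by ring
    have e4 : ‖ww c c' i (pt κ η) θ₀‖ ≤ ((2 + κ) * (4 * (1 / Real.sin θ₀))) * ‖c i θ₀‖ + 4 * ‖c' i θ₀‖ := by
      calc ‖ww c c' i (pt κ η) θ₀‖ ≤ ‖fp (pt κ η) θ₀ * c i θ₀‖ + ‖ff (pt κ η) θ₀ * c' i θ₀‖ := norm_sub_le _ _
        _ ≤ _ := by
            rw [norm_mul, norm_mul]
            gcongr
    have e3 := norm_den_pt κ η (lam i)
    rw [norm_mul, norm_div, Complex.norm_real, Real.norm_eq_abs, abs_of_pos hη.1]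
    have hden : 0 < 2 * η * κ := by have := hη.1; positivity
    calc η * (‖ww c c' i (pt κ η) θ₀‖ / ‖(lam i : ℂ) - pt κ η * (1 - pt κ η)‖)
        ≤ η * ((((2 + κ) * (4 * (1 / Real.sin θ₀))) * ‖c i θ₀‖ + 4 * ‖c' i θ₀‖) / (2 * η * κ)) := by
          have := hη.1
          gcongr
      _ = _ := by
          have := hη.1.ne'
          have := hκ.ne'
          field_simp

/-- For every `λ > 1/4` the Wronskian with `f_{1/2+iκ}` vanishes. -/
theorem SolFam.wronsk [Countable ι] (H : SolFam lam c c' G A C) (ho : G =o[𝓝[>] 0] (fun θ => θ ^ (1 / 2 : ℝ)))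
    (hinj : Function.Injective lam) {θ₀ : ℝ} (h0 : θ₀ ∈ II) {κ : ℝ} (hκ : 0 < κ) (j : ι)
    (hj : lam j = 1 / 4 + κ ^ 2) : ww c c' j (pt κ 0) θ₀ = 0 := by
  have h1 := H.lim_L h0 hκ
  have h2 := lim_J H.cG ho h0 κ
  have h3 : Tendsto (fun η : ℝ => (η : ℂ) * ∑' i, ww c c' i (pt κ η) θ₀ / ((lam i : ℂ) - pt κ η * (1 - pt κ η)))
      (𝓝[>] 0) (𝓝 0) := by
    refine h2.congr' ?_
    filter_upwards [self_mem_nhdsWithin] with η hη
    have hη0 : (0 : ℝ) < η := hη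
    rw [H.identity ho h0 (s := pt κ η) ⟨by rw [pt_re]; linarith, by rw [pt_im]; exact hκ⟩]
  have h4 := tendsto_nhds_unique h1 h3
  rw [tsum_eq_single j (fun i hi => if_neg fun h => hi (hinj (h.trans hj.symm)))] at h4
  rw [if_pos hj] at h4
  have hκc : (κ : ℂ) ≠ 0 := by exact_mod_cast hκ.ne'
  have h5 : (2 * κ * Complex.I : ℂ) ≠ 0 := mul_ne_zero (mul_ne_zero two_ne_zero hκc) Complex.I_ne_zero
  exact (div_eq_zero_iff.mp h4).resolve_right h5

theorem SolFam.conj (H : SolFam lam c c' G A C) :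
    SolFam lam (fun i θ => conj (c i θ)) (fun i θ => conj (c' i θ)) (fun θ => conj (G θ)) A C where
  A0 := H.A0
  d1 i θ h := (H.d1 i θ h).star
  d2 i θ h := by
    refine (H.d2 i θ h).star.congr_deriv ?_
    simp only [star_mul', star_neg, RCLike.star_def, Complex.conj_ofReal]
  s1 θ h := by simpa using H.s1 θ h
  b1 θ h := by simpa using H.b1 θ h
  s2 θ h := by simpa using H.s2 θ h
  b2 θ h := by simpa using H.b2 θ h
  hG θ h := by
    have := (H.hG θ h).mapL (Complex.conjCLE : ℂ →L[ℝ] ℂ)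
    simpa using this
  cG := Complex.continuous_conj.comp_continuousOn H.cG

/-- **SP1.** If a countable absolutely summable family of solutions of `-sin² c_i'' = λ_i c_i` on `(0, π/2)`
(with different `λ_i`) has a sum which is `o(θ^(1/2))` at `0`, then `c_j = 0` for all `λ_j > 1/4`. -/
theorem SolFam.main [Countable ι] (H : SolFam lam c c' G A C) (ho : G =o[𝓝[>] 0] (fun θ => θ ^ (1 / 2 : ℝ)))
    (hinj : Function.Injective lam) (j : ι) (hj : 1 / 4 < lam j) {θ : ℝ} (h : θ ∈ II) : c j θ = 0 := by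
  set κ : ℝ := Real.sqrt (lam j - 1 / 4) with hκ
  have hκ0 : 0 < κ := Real.sqrt_pos.mpr (by linarith)
  have hj' : lam j = 1 / 4 + κ ^ 2 := by
    rw [hκ, Real.sq_sqrt (by linarith)]
    ring
  have h1 := H.wronsk ho hinj h hκ0 j hj'
  have ho' : (fun θ => conj (G θ)) =o[𝓝[>] 0] (fun θ => θ ^ (1 / 2 : ℝ)) := by
    refine ho.norm_left.congr_left (fun θ => ?_) |>.of_norm_left
    simp
  have h2 := H.conj.wronsk ho' hinj h hκ0 j hj'
  have hpt : pt κ 0 = 1 / 2 + Complex.I * κ := by unfold pt; push_cast; ring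
  rw [hpt] at h1 h2
  set s : ℂ := 1 / 2 + Complex.I * κ with hs
  have h3 : conj (fp s θ) * c j θ - conj (ff s θ) * c' j θ = 0 := by
    have := congrArg conj h2
    simpa [ww] using this
  have h4 : fp s θ * c j θ - ff s θ * c' j θ = 0 := h1
  have h5 : wr s θ * c j θ = 0 := by
    unfold wr
    linear_combination (conj (ff s θ)) * h4 - ff s θ * h3
  exact (mul_eq_zero.mp h5).resolve_left (wr_ne hκ0.ne' h)

end Pool.Agent.SP
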