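import Pool.Agent.Lib_helper58.SP.ML

/-! The test solutions `f_s(θ) = ∫ (sin θ / (2 (cosh τ + cos θ)))^s dτ` of `f'' = s(s-1) f / sin²`. -/

namespace Pool.Agent.SP

open MeasureTheory Set Filter Topology

/-- `sin θ / (2 (cosh τ + cos θ))` -/
noncomputable def hh (τ θ : ℝ) : ℝ := Real.sin θ / (2 * (Real.cosh τ + Real.cos θ))

/-- `∂_θ log hh` -/
noncomputable def gg (τ θ : ℝ) : ℝ :=
  (Real.cos θ * Real.cosh τ + 1) / (Real.sin θ * (Real.cosh τ + Real.cos θ))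

/-- `-∂_τ log hh` -/
noncomputable def ee (τ θ : ℝ) : ℝ := Real.sinh τ / (Real.cosh τ + Real.cos θ)

/-- `∂_τ ee` -/
noncomputable def ep (τ θ : ℝ) : ℝ :=
  (1 + Real.cosh τ * Real.cos θ) / (Real.cosh τ + Real.cos θ) ^ 2

/-- the test solution -/
noncomputable def ff (s : ℂ) (θ : ℝ) : ℂ := ∫ τ : ℝ, ((hh τ θ : ℝ) : ℂ) ^ s

/-- its derivative -/
noncomputable def fp (s : ℂ) (θ : ℝ) : ℂ := s * ∫ τ : ℝ, ((hh τ θ : ℝ) : ℂ) ^ s * ((gg τ θ : ℝ) : ℂ)

/-- the interval `(0, π/2)` -/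
abbrev II : Set ℝ := Ioo 0 (Real.pi / 2)

theorem sin_pos' {θ : ℝ} (h : θ ∈ II) : 0 < Real.sin θ :=
  Real.sin_pos_of_pos_of_lt_pi h.1 (by linarith [h.2, Real.pi_pos])

theorem cos_pos' {θ : ℝ} (h : θ ∈ II) : 0 < Real.cos θ :=
  Real.cos_pos_of_mem_Ioo ⟨by linarith [h.1, Real.pi_pos], h.2⟩

theorem den_pos {θ : ℝ} (h : θ ∈ II) (τ : ℝ) : 0 < Real.cosh τ + Real.cos θ := by
  have := Real.cosh_pos τ
  have := cos_pos' h
  linarith

theorem exp_le_two_cosh (τ : ℝ) : Real.exp |τ| ≤ 2 * Real.cosh τ := by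
  rw [← Real.cosh_abs, Real.cosh_eq]
  have := Real.exp_pos (-|τ|)
  linarith

theorem hh_pos {θ : ℝ} (h : θ ∈ II) (τ : ℝ) : 0 < hh τ θ :=
  div_pos (sin_pos' h) (mul_pos two_pos (den_pos h τ))

theorem hh_le {θ : ℝ} (h : θ ∈ II) (τ : ℝ) : hh τ θ ≤ Real.sin θ * Real.exp (-|τ|) := by
  rw [hh, Real.exp_neg, ← div_eq_mul_inv]
  refine div_le_div_of_nonneg_left (sin_pos' h).le (Real.exp_pos _) ?_
  have := exp_le_two_cosh τ
  have := cos_pos' h
  linarith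

theorem hh_le_one {θ : ℝ} (h : θ ∈ II) (τ : ℝ) : hh τ θ ≤ 1 := by
  refine (hh_le h τ).trans ?_
  have h1 := Real.sin_le_one θ
  have h2 : Real.exp (-|τ|) ≤ 1 := by
    rw [Real.exp_le_one_iff]
    linarith [abs_nonneg τ]
  have h3 := (Real.exp_pos (-|τ|)).le
  nlinarith [sin_pos' h]

theorem gg_nonneg {θ : ℝ} (h : θ ∈ II) (τ : ℝ) : 0 ≤ gg τ θ := by
  rw [gg]
  have h1 := cos_pos' h
  have h2 := Real.cosh_pos τ
  have h3 := sin_pos' h
  have h4 := den_pos h τ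
  positivity

theorem gg_le {θ : ℝ} (h : θ ∈ II) (τ : ℝ) : gg τ θ ≤ 1 / Real.sin θ := by
  rw [gg, div_le_div_iff₀ (mul_pos (sin_pos' h) (den_pos h τ)) (sin_pos' h)]
  have h1 := Real.one_le_cosh τ
  have h2 := Real.cos_le_one θ
  have h3 := sin_pos' h
  nlinarith [mul_nonneg (sub_nonneg.mpr h1) (sub_nonneg.mpr h2)]

theorem ee_abs_le {θ : ℝ} (h : θ ∈ II) (τ : ℝ) : |ee τ θ| ≤ 1 := by
  rw [ee, abs_div, abs_of_pos (den_pos h τ), div_le_one (den_pos h τ)]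
  have h1 := cos_pos' h
  have h2 : |Real.sinh τ| ≤ Real.cosh τ := by
    rw [Real.abs_sinh]
    rw [← Real.cosh_abs τ]
    exact (Real.sinh_lt_cosh |τ|).le
  linarith

theorem ep_nonneg {θ : ℝ} (h : θ ∈ II) (τ : ℝ) : 0 ≤ ep τ θ := by
  rw [ep]
  have h1 := cos_pos' h
  have h2 := Real.cosh_pos τ
  have h4 := den_pos h τ
  positivity

theorem ep_le {θ : ℝ} (h : θ ∈ II) (τ : ℝ) : ep τ θ ≤ 1 := by
  rw [ep, div_le_one (pow_pos (den_pos h τ) 2)]
  have h1 := Real.one_le_cosh τ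
  have h2 := Real.cos_le_one θ
  have h3 := cos_pos' h
  nlinarith [mul_nonneg (sub_nonneg.mpr h1) (sub_nonneg.mpr h2)]

theorem hasDeriv_hh {θ : ℝ} (h : θ ∈ II) (τ : ℝ) : HasDerivAt (fun t => hh τ t) (hh τ θ * gg τ θ) θ := by
  have hd := (den_pos h τ).ne'
  have hs := (sin_pos' h).ne'
  have h1 : HasDerivAt (fun t => Real.sin t / (2 * (Real.cosh τ + Real.cos t)))
      ((Real.cos θ * (2 * (Real.cosh τ + Real.cos θ)) - Real.sin θ * (2 * (0 + -Real.sin θ))) /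
        (2 * (Real.cosh τ + Real.cos θ)) ^ 2) θ := by
    refine (Real.hasDerivAt_sin θ).div ?_ (by positivity)
    exact ((hasDerivAt_const θ (Real.cosh τ)).add (Real.hasDerivAt_cos θ)).const_mul 2
  refine HasDerivAt.congr_deriv (f := fun t => hh τ t) h1 ?_
  simp only [hh, gg]
  field_simp
  have := Real.sin_sq_add_cos_sq θ
  linear_combination this

theorem hasDeriv_gg {θ : ℝ} (h : θ ∈ II) (τ : ℝ) :
    HasDerivAt (fun t => gg τ t) (ep τ θ - 1 / Real.sin θ ^ 2) θ := by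
  have hd := (den_pos h τ).ne'
  have hs := (sin_pos' h).ne'
  have h1 : HasDerivAt (fun t => (Real.cos t * Real.cosh τ + 1) / (Real.sin t * (Real.cosh τ + Real.cos t)))
      (((-Real.sin θ * Real.cosh τ) * (Real.sin θ * (Real.cosh τ + Real.cos θ))
        - (Real.cos θ * Real.cosh τ + 1) * (Real.cos θ * (Real.cosh τ + Real.cos θ)
          + Real.sin θ * (0 + -Real.sin θ))) / (Real.sin θ * (Real.cosh τ + Real.cos θ)) ^ 2) θ := by
    refine HasDerivAt.div ?_ ?_ (by positivity)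
    · exact ((Real.hasDerivAt_cos θ).mul_const _).add_const 1
    · exact (Real.hasDerivAt_sin θ).mul ((hasDerivAt_const θ (Real.cosh τ)).add (Real.hasDerivAt_cos θ))
  refine HasDerivAt.congr_deriv (f := fun t => gg τ t) h1 ?_
  simp only [ep]
  field_simp
  have h2 : Real.sin θ ^ 2 = 1 - Real.cos θ ^ 2 := by
    have := Real.sin_sq_add_cos_sq θ
    linarith
  rw [h2]
  ring_nf
  try rw [h2]
  try ring

theorem hasDeriv_hh_tau {θ : ℝ} (h : θ ∈ II) (τ : ℝ) : HasDerivAt (fun t => hh t θ) (-(hh τ θ * ee τ θ)) τ := by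
  have hd := (den_pos h τ).ne'
  have h1 : HasDerivAt (fun t => Real.sin θ / (2 * (Real.cosh t + Real.cos θ)))
      ((0 * (2 * (Real.cosh τ + Real.cos θ)) - Real.sin θ * (2 * (Real.sinh τ + 0))) /
        (2 * (Real.cosh τ + Real.cos θ)) ^ 2) τ := by
    refine (hasDerivAt_const τ (Real.sin θ)).div ?_ (by positivity)
    exact ((Real.hasDerivAt_cosh τ).add (hasDerivAt_const τ (Real.cos θ))).const_mul 2
  refine HasDerivAt.congr_deriv (f := fun t => hh t θ) h1 ?_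
  simp only [hh, ee]
  field_simp
  ring

theorem hasDeriv_ee {θ : ℝ} (h : θ ∈ II) (τ : ℝ) : HasDerivAt (fun t => ee t θ) (ep τ θ) τ := by
  have hd := (den_pos h τ).ne'
  have h1 : HasDerivAt (fun t => Real.sinh t / (Real.cosh t + Real.cos θ))
      ((Real.cosh τ * (Real.cosh τ + Real.cos θ) - Real.sinh τ * (Real.sinh τ + 0)) /
        (Real.cosh τ + Real.cos θ) ^ 2) τ := by
    refine (Real.hasDerivAt_sinh τ).div ?_ hd
    exact (Real.hasDerivAt_cosh τ).add (hasDerivAt_const τ (Real.cos θ))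
  refine HasDerivAt.congr_deriv (f := fun t => ee t θ) h1 ?_
  simp only [ep]
  congr 1
  linear_combination Real.cosh_sq τ

theorem key_id {θ : ℝ} (h : θ ∈ II) (τ : ℝ) : gg τ θ ^ 2 + ee τ θ ^ 2 = 1 / Real.sin θ ^ 2 := by
  have hd := (den_pos h τ).ne'
  have hs := (sin_pos' h).ne'
  rw [gg, ee]
  field_simp
  have h1 := Real.cosh_sq τ
  have h2 : Real.sin θ ^ 2 = 1 - Real.cos θ ^ 2 := by
    have := Real.sin_sq_add_cos_sq θ
    linarith
  rw [h2]
  have h3 : Real.sinh τ ^ 2 = Real.cosh τ ^ 2 - 1 := by linarith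
  rw [h3]
  ring

end Pool.Agent.SP
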