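import Pool.Agent.Lib_helper58.SP.F

/-! Integrability and differential equation of the test solutions. -/

namespace Pool.Agent.SP

open MeasureTheory Set Filter Topology

theorem f2_int_one : Integrable (fun x : ℝ => Real.exp (-|x|)) := by
  by_contra h
  have h1 := integral_comp_abs (f := fun x : ℝ => Real.exp (-x))
  rw [integral_undef h, integral_exp_neg_Ioi_zero] at h1
  norm_num at h1

theorem f2_int {σ : ℝ} (hσ : 0 < σ) : Integrable (fun x : ℝ => Real.exp (-(σ * |x|))) := by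
  have h := f2_int_one.comp_mul_left' hσ.ne'
  refine h.congr (ae_of_all _ fun x => ?_)
  simp only [abs_mul, abs_of_pos hσ]

theorem f2_integral {σ : ℝ} (hσ : 0 < σ) : ∫ x : ℝ, Real.exp (-(σ * |x|)) = 2 / σ := by
  have h := Measure.integral_comp_mul_left (fun x : ℝ => Real.exp (-|x|)) σ
  have h1 : ∫ x : ℝ, Real.exp (-|x|) = 2 := by
    have h2 := integral_comp_abs (f := fun x : ℝ => Real.exp (-x))
    rw [h2, integral_exp_neg_Ioi_zero]
    norm_num
  rw [h1] at h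
  have h3 : ∀ x : ℝ, Real.exp (-(σ * |x|)) = Real.exp (-|σ * x|) := fun x => by
    rw [abs_mul, abs_of_pos hσ]
  simp_rw [h3, h, abs_of_pos (inv_pos.mpr hσ), smul_eq_mul]
  field_simp

theorem f2_norm {θ : ℝ} (h : θ ∈ II) (τ : ℝ) (s : ℂ) : ‖((hh τ θ : ℝ) : ℂ) ^ s‖ = hh τ θ ^ s.re :=
  Complex.norm_cpow_eq_rpow_re_of_pos (hh_pos h τ) s

theorem f2_bound {θ : ℝ} (h : θ ∈ II) (τ : ℝ) {σ : ℝ} (hσ : 0 < σ) :
    hh τ θ ^ σ ≤ Real.sin θ ^ σ * Real.exp (-(σ * |τ|)) := by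
  calc hh τ θ ^ σ ≤ (Real.sin θ * Real.exp (-|τ|)) ^ σ :=
        Real.rpow_le_rpow (hh_pos h τ).le (hh_le h τ) hσ.le
    _ = Real.sin θ ^ σ * Real.exp (-(σ * |τ|)) := by
        rw [Real.mul_rpow (sin_pos' h).le (Real.exp_pos _).le, ← Real.exp_mul]
        congr 2
        ring

theorem f2_cont_hh {θ : ℝ} (h : θ ∈ II) : Continuous (fun τ => hh τ θ) := by
  unfold hh
  refine continuous_const.div (by fun_prop) (fun τ => ?_)
  have := den_pos h τ
  positivity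

theorem f2_cont_gg {θ : ℝ} (h : θ ∈ II) : Continuous (fun τ => gg τ θ) := by
  unfold gg
  refine Continuous.div (by fun_prop) (by fun_prop) (fun τ => ?_)
  have := den_pos h τ
  have := sin_pos' h
  positivity

theorem f2_cont_cpow {θ : ℝ} (h : θ ∈ II) (s : ℂ) : Continuous (fun τ => ((hh τ θ : ℝ) : ℂ) ^ s) := by
  refine Continuous.cpow (Complex.continuous_ofReal.comp (f2_cont_hh h)) continuous_const (fun τ => ?_)
  exact Or.inl (by simpa using hh_pos h τ)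

theorem f2_integrable {θ : ℝ} (h : θ ∈ II) {s : ℂ} (hs : 0 < s.re) :
    Integrable (fun τ => ((hh τ θ : ℝ) : ℂ) ^ s) := by
  refine ((f2_int hs).const_mul (Real.sin θ ^ s.re)).mono' (f2_cont_cpow h s).aestronglyMeasurable
    (ae_of_all _ fun τ => ?_)
  rw [f2_norm h]
  exact f2_bound h τ hs

theorem f2_integrable_g {θ : ℝ} (h : θ ∈ II) {s : ℂ} (hs : 0 < s.re) :
    Integrable (fun τ => ((hh τ θ : ℝ) : ℂ) ^ s * ((gg τ θ : ℝ) : ℂ)) := by
  refine ((f2_int hs).const_mul (Real.sin θ ^ s.re * (1 / Real.sin θ))).mono'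
    ((f2_cont_cpow h s).mul (Complex.continuous_ofReal.comp (f2_cont_gg h))).aestronglyMeasurable
    (ae_of_all _ fun τ => ?_)
  rw [norm_mul, f2_norm h, Complex.norm_real, Real.norm_eq_abs, abs_of_nonneg (gg_nonneg h τ)]
  calc hh τ θ ^ s.re * gg τ θ ≤ (Real.sin θ ^ s.re * Real.exp (-(s.re * |τ|))) * (1 / Real.sin θ) :=
        mul_le_mul (f2_bound h τ hs) (gg_le h τ) (gg_nonneg h τ) (by
          have := (sin_pos' h).le
          positivity)
    _ = _ := by ring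

theorem ff_norm_le {θ : ℝ} (h : θ ∈ II) {s : ℂ} (hs : 0 < s.re) :
    ‖ff s θ‖ ≤ 2 / s.re * Real.sin θ ^ s.re := by
  rw [ff]
  calc ‖∫ τ : ℝ, ((hh τ θ : ℝ) : ℂ) ^ s‖ ≤ ∫ τ : ℝ, Real.sin θ ^ s.re * Real.exp (-(s.re * |τ|)) := by
        refine norm_integral_le_of_norm_le ((f2_int hs).const_mul _) (ae_of_all _ fun τ => ?_)
        rw [f2_norm h]
        exact f2_bound h τ hs
    _ = _ := by
        rw [integral_const_mul, f2_integral hs]
        ring

theorem fp_norm_le {θ : ℝ} (h : θ ∈ II) {s : ℂ} (hs : 0 < s.re) :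
    ‖fp s θ‖ ≤ ‖s‖ * (2 / s.re) * (Real.sin θ ^ s.re / Real.sin θ) := by
  rw [fp, norm_mul, mul_assoc]
  refine mul_le_mul_of_nonneg_left ?_ (norm_nonneg s)
  calc ‖∫ τ : ℝ, ((hh τ θ : ℝ) : ℂ) ^ s * ((gg τ θ : ℝ) : ℂ)‖
      ≤ ∫ τ : ℝ, (Real.sin θ ^ s.re * (1 / Real.sin θ)) * Real.exp (-(s.re * |τ|)) := by
        refine norm_integral_le_of_norm_le ((f2_int hs).const_mul _) (ae_of_all _ fun τ => ?_)
        rw [norm_mul, f2_norm h, Complex.norm_real, Real.norm_eq_abs, abs_of_nonneg (gg_nonneg h τ)]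
        calc hh τ θ ^ s.re * gg τ θ ≤ (Real.sin θ ^ s.re * Real.exp (-(s.re * |τ|))) * (1 / Real.sin θ) :=
              mul_le_mul (f2_bound h τ hs) (gg_le h τ) (gg_nonneg h τ) (by
                have := (sin_pos' h).le
                positivity)
          _ = _ := by ring
    _ = _ := by
        rw [integral_const_mul, f2_integral hs]
        ring

/-- `sin` is bounded below near a point of `(0, π/2)`. -/
theorem f2_nhds {θ : ℝ} (h : θ ∈ II) : ∃ δ > 0, ∀ t ∈ Metric.ball θ δ, t ∈ II ∧ Real.sin θ / 2 ≤ Real.sin t := by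
  have h1 : ∀ᶠ t in 𝓝 θ, t ∈ II := isOpen_Ioo.mem_nhds h
  have h2 : ∀ᶠ t in 𝓝 θ, Real.sin θ / 2 < Real.sin t := by
    have h3 : Tendsto Real.sin (𝓝 θ) (𝓝 (Real.sin θ)) := Real.continuous_sin.continuousAt
    exact h3.eventually_const_lt (by linarith [sin_pos' h])
  obtain ⟨δ, hδ, hb⟩ := Metric.eventually_nhds_iff_ball.mp (h1.and h2)
  exact ⟨δ, hδ, fun t ht => ⟨(hb t ht).1, (hb t ht).2.le⟩⟩

theorem hasDeriv_cpow {θ : ℝ} (h : θ ∈ II) (τ : ℝ) (s : ℂ) :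
    HasDerivAt (fun t => ((hh τ t : ℝ) : ℂ) ^ s) (s * (((hh τ θ : ℝ) : ℂ) ^ s * ((gg τ θ : ℝ) : ℂ))) θ := by
  have h0 : ((hh τ θ : ℝ) : ℂ) ≠ 0 := by exact_mod_cast (hh_pos h τ).ne'
  have h1 : HasDerivAt (fun t => ((hh τ t : ℝ) : ℂ)) (((hh τ θ * gg τ θ : ℝ)) : ℂ) θ :=
    (hasDeriv_hh h τ).ofReal_comp
  have hslit : ((hh τ θ : ℝ) : ℂ) ∈ Complex.slitPlane := Or.inl (by simpa using hh_pos h τ)
  have h3 : HasDerivAt (fun z : ℂ => z ^ s) (s * ((hh τ θ : ℝ) : ℂ) ^ (s - 1) * 1) ((hh τ θ : ℝ) : ℂ) :=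
    (hasDerivAt_id _).cpow_const hslit
  have h2 := h3.scomp θ h1
  refine HasDerivAt.congr_deriv (f := fun t => ((hh τ t : ℝ) : ℂ) ^ s) h2 ?_
  rw [Complex.cpow_sub _ _ h0, Complex.cpow_one, smul_eq_mul]
  push_cast
  field_simp

theorem ff_hasDeriv {θ : ℝ} (h : θ ∈ II) {s : ℂ} (hs : 0 < s.re) :
    HasDerivAt (fun t => ff s t) (fp s θ) θ := by
  obtain ⟨δ, hδ, hb⟩ := f2_nhds h
  have key := hasDerivAt_integral_of_dominated_loc_of_deriv_le (μ := (volume : Measure ℝ)) (𝕜 := ℝ)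
    (F := fun (t : ℝ) (τ : ℝ) => ((hh τ t : ℝ) : ℂ) ^ s)
    (F' := fun (t : ℝ) (τ : ℝ) => s * (((hh τ t : ℝ) : ℂ) ^ s * ((gg τ t : ℝ) : ℂ)))
    (x₀ := θ) (s := Metric.ball θ δ)
    (bound := fun τ => (‖s‖ * (1 / (Real.sin θ / 2))) * Real.exp (-(s.re * |τ|)))
    (Metric.ball_mem_nhds θ hδ)
    (by
      filter_upwards [Metric.ball_mem_nhds θ hδ] with t ht
      exact (f2_cont_cpow (hb t ht).1 s).aestronglyMeasurable)
    (f2_integrable h hs)
    ((continuous_const.mul ((f2_cont_cpow h s).mul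
      (Complex.continuous_ofReal.comp (f2_cont_gg h)))).aestronglyMeasurable)
    (ae_of_all _ fun τ t ht => ?_)
    ((f2_int hs).const_mul _)
    (ae_of_all _ fun τ t ht => hasDeriv_cpow (hb t ht).1 τ s)
  · refine key.2.congr_deriv ?_
    rw [integral_const_mul]
    rfl
  · have ht1 := (hb t ht).1
    have ht2 := (hb t ht).2
    have hsp := sin_pos' h
    rw [norm_mul, norm_mul, f2_norm ht1, Complex.norm_real, Real.norm_eq_abs, abs_of_nonneg (gg_nonneg ht1 τ),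
      mul_assoc]
    refine mul_le_mul_of_nonneg_left ?_ (norm_nonneg s)
    have h1 : hh τ t ^ s.re ≤ Real.exp (-(s.re * |τ|)) := by
      refine (f2_bound ht1 τ hs).trans ?_
      have h2 : Real.sin t ^ s.re ≤ 1 := Real.rpow_le_one (sin_pos' ht1).le (Real.sin_le_one t) hs.le
      nlinarith [(Real.exp_pos (-(s.re * |τ|))).le]
    have h3 : gg τ t ≤ 1 / (Real.sin θ / 2) := (gg_le ht1 τ).trans (by
      refine one_div_le_one_div_of_le (by linarith) ht2)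
    calc hh τ t ^ s.re * gg τ t ≤ Real.exp (-(s.re * |τ|)) * (1 / (Real.sin θ / 2)) :=
          mul_le_mul h1 h3 (gg_nonneg ht1 τ) (Real.exp_pos _).le
      _ = _ := by ring

end Pool.Agent.SP
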