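import Pool.Agent.Lib_helper58.SP.F2

/-! The differential equation, holomorphy in `s`, and the behaviour at `θ → 0`. -/

namespace Pool.Agent.SP

open MeasureTheory Set Filter Topology

theorem f3_cont_ee {θ : ℝ} (h : θ ∈ II) : Continuous (fun τ => ee τ θ) := by
  unfold ee
  refine Continuous.div (by fun_prop) (by fun_prop) (fun τ => (den_pos h τ).ne')

theorem f3_cont_ep {θ : ℝ} (h : θ ∈ II) : Continuous (fun τ => ep τ θ) := by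
  unfold ep
  refine Continuous.div (by fun_prop) (by fun_prop) (fun τ => ?_)
  have := den_pos h τ
  positivity

theorem f3_tau {θ : ℝ} (h : θ ∈ II) (τ : ℝ) (s : ℂ) :
    HasDerivAt (fun t => ((hh t θ : ℝ) : ℂ) ^ s * ((ee t θ : ℝ) : ℂ))
      (((hh τ θ : ℝ) : ℂ) ^ s * ((ep τ θ : ℝ) : ℂ) - s * (((hh τ θ : ℝ) : ℂ) ^ s * ((ee τ θ : ℝ) : ℂ) ^ 2)) τ := by
  have h0 : ((hh τ θ : ℝ) : ℂ) ≠ 0 := by exact_mod_cast (hh_pos h τ).ne'
  have h1 : HasDerivAt (fun t => ((hh t θ : ℝ) : ℂ)) (((-(hh τ θ * ee τ θ) : ℝ)) : ℂ) τ :=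
    (hasDeriv_hh_tau h τ).ofReal_comp
  have hslit : ((hh τ θ : ℝ) : ℂ) ∈ Complex.slitPlane := Or.inl (by simpa using hh_pos h τ)
  have h3 : HasDerivAt (fun z : ℂ => z ^ s) (s * ((hh τ θ : ℝ) : ℂ) ^ (s - 1) * 1) ((hh τ θ : ℝ) : ℂ) :=
    (hasDerivAt_id _).cpow_const hslit
  have h2 : HasDerivAt (fun t => ((hh t θ : ℝ) : ℂ) ^ s)
      ((((-(hh τ θ * ee τ θ) : ℝ)) : ℂ) • (s * ((hh τ θ : ℝ) : ℂ) ^ (s - 1) * 1)) τ := by
    have := h3.scomp τ h1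
    exact this
  have h4 : HasDerivAt (fun t => ((ee t θ : ℝ) : ℂ)) ((ep τ θ : ℝ) : ℂ) τ := (hasDeriv_ee h τ).ofReal_comp
  refine (h2.mul h4).congr_deriv ?_
  rw [Complex.cpow_sub _ _ h0, Complex.cpow_one, smul_eq_mul]
  push_cast
  field_simp
  ring

theorem f3_bound_A {θ : ℝ} (h : θ ∈ II) {s : ℂ} (hs : 0 < s.re) (τ : ℝ) :
    ‖((hh τ θ : ℝ) : ℂ) ^ s * ((ep τ θ : ℝ) : ℂ) - s * (((hh τ θ : ℝ) : ℂ) ^ s * ((ee τ θ : ℝ) : ℂ) ^ 2)‖
      ≤ (1 + ‖s‖) * Real.exp (-(s.re * |τ|)) := by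
  have h1 : hh τ θ ^ s.re ≤ Real.exp (-(s.re * |τ|)) := by
    refine (f2_bound h τ hs).trans ?_
    have h2 : Real.sin θ ^ s.re ≤ 1 := Real.rpow_le_one (sin_pos' h).le (Real.sin_le_one θ) hs.le
    nlinarith [(Real.exp_pos (-(s.re * |τ|))).le]
  have h5 : 0 ≤ hh τ θ ^ s.re := (Real.rpow_pos_of_pos (hh_pos h τ) _).le
  have h6 : ‖((ep τ θ : ℝ) : ℂ)‖ ≤ 1 := by
    rw [Complex.norm_real, Real.norm_eq_abs, abs_of_nonneg (ep_nonneg h τ)]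
    exact ep_le h τ
  have h7 : ‖((ee τ θ : ℝ) : ℂ) ^ 2‖ ≤ 1 := by
    rw [norm_pow, Complex.norm_real, Real.norm_eq_abs]
    exact pow_le_one₀ (abs_nonneg _) (ee_abs_le h τ)
  calc _ ≤ ‖((hh τ θ : ℝ) : ℂ) ^ s * ((ep τ θ : ℝ) : ℂ)‖ + ‖s * (((hh τ θ : ℝ) : ℂ) ^ s * ((ee τ θ : ℝ) : ℂ) ^ 2)‖ :=
        norm_sub_le _ _
    _ ≤ hh τ θ ^ s.re * 1 + ‖s‖ * (hh τ θ ^ s.re * 1) := by
        rw [norm_mul, norm_mul s, norm_mul, f2_norm h]
        gcongr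
    _ = (1 + ‖s‖) * hh τ θ ^ s.re := by ring
    _ ≤ _ := by gcongr

theorem f3_tendsto_zero {θ : ℝ} (h : θ ∈ II) {s : ℂ} (hs : 0 < s.re) {l : Filter ℝ}
    (hl : Tendsto (fun τ : ℝ => |τ|) l atTop) :
    Tendsto (fun t => ((hh t θ : ℝ) : ℂ) ^ s * ((ee t θ : ℝ) : ℂ)) l (𝓝 0) := by
  have h1 : Tendsto (fun τ : ℝ => Real.exp (-(s.re * |τ|))) l (𝓝 0) := by
    refine Real.tendsto_exp_neg_atTop_nhds_zero.comp ?_
    exact hl.const_mul_atTop hs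
  refine squeeze_zero_norm (fun τ => ?_) h1
  rw [norm_mul, f2_norm h, Complex.norm_real, Real.norm_eq_abs]
  have h1 : hh τ θ ^ s.re ≤ Real.exp (-(s.re * |τ|)) := by
    refine (f2_bound h τ hs).trans ?_
    have h2 : Real.sin θ ^ s.re ≤ 1 := Real.rpow_le_one (sin_pos' h).le (Real.sin_le_one θ) hs.le
    nlinarith [(Real.exp_pos (-(s.re * |τ|))).le]
  calc hh τ θ ^ s.re * |ee τ θ| ≤ Real.exp (-(s.re * |τ|)) * 1 :=
        mul_le_mul h1 (ee_abs_le h τ) (abs_nonneg _) (Real.exp_pos _).le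
    _ = _ := by ring

theorem f3_int_zero {θ : ℝ} (h : θ ∈ II) {s : ℂ} (hs : 0 < s.re) :
    Integrable (fun τ => ((hh τ θ : ℝ) : ℂ) ^ s * ((ep τ θ : ℝ) : ℂ)
      - s * (((hh τ θ : ℝ) : ℂ) ^ s * ((ee τ θ : ℝ) : ℂ) ^ 2)) ∧
    ∫ τ : ℝ, (((hh τ θ : ℝ) : ℂ) ^ s * ((ep τ θ : ℝ) : ℂ)
      - s * (((hh τ θ : ℝ) : ℂ) ^ s * ((ee τ θ : ℝ) : ℂ) ^ 2)) = 0 := by
  have hi : Integrable (fun τ => ((hh τ θ : ℝ) : ℂ) ^ s * ((ep τ θ : ℝ) : ℂ)
      - s * (((hh τ θ : ℝ) : ℂ) ^ s * ((ee τ θ : ℝ) : ℂ) ^ 2)) := by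
    refine ((f2_int hs).const_mul (1 + ‖s‖)).mono' ?_ (ae_of_all _ fun τ => f3_bound_A h hs τ)
    refine Continuous.aestronglyMeasurable ?_
    have h1 := f2_cont_cpow h s
    have h2 : Continuous (fun τ => ((ee τ θ : ℝ) : ℂ)) := Complex.continuous_ofReal.comp (f3_cont_ee h)
    have h3 : Continuous (fun τ => ((ep τ θ : ℝ) : ℂ)) := Complex.continuous_ofReal.comp (f3_cont_ep h)
    fun_prop
  refine ⟨hi, ?_⟩
  have := integral_of_hasDerivAt_of_tendsto (fun τ => f3_tau h τ s) hi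
    (f3_tendsto_zero h hs tendsto_abs_atBot_atTop) (f3_tendsto_zero h hs tendsto_abs_atTop_atTop)
  rw [this]
  simp

theorem fp_hasDeriv {θ : ℝ} (h : θ ∈ II) {s : ℂ} (hs : 0 < s.re) :
    HasDerivAt (fun t => fp s t) (s * (s - 1) / ((Real.sin θ : ℝ) : ℂ) ^ 2 * ff s θ) θ := by
  obtain ⟨δ, hδ, hb⟩ := f2_nhds h
  have hderiv : ∀ t ∈ II, ∀ τ : ℝ, HasDerivAt (fun t => ((hh τ t : ℝ) : ℂ) ^ s * ((gg τ t : ℝ) : ℂ))
      (s * (((hh τ t : ℝ) : ℂ) ^ s * ((gg τ t : ℝ) : ℂ) ^ 2)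
        + ((hh τ t : ℝ) : ℂ) ^ s * (((ep τ t - 1 / Real.sin t ^ 2 : ℝ)) : ℂ)) t := by
    intro t ht τ
    have h1 := hasDeriv_cpow ht τ s
    have h2 : HasDerivAt (fun t => ((gg τ t : ℝ) : ℂ)) (((ep τ t - 1 / Real.sin t ^ 2 : ℝ)) : ℂ) t :=
      (hasDeriv_gg ht τ).ofReal_comp
    refine (h1.mul h2).congr_deriv ?_
    ring
  have hcont : ∀ t ∈ II, Continuous (fun τ => s * (((hh τ t : ℝ) : ℂ) ^ s * ((gg τ t : ℝ) : ℂ) ^ 2)
        + ((hh τ t : ℝ) : ℂ) ^ s * (((ep τ t - 1 / Real.sin t ^ 2 : ℝ)) : ℂ)) := by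
    intro t ht
    have h1 := f2_cont_cpow ht s
    have h2 : Continuous (fun τ => ((gg τ t : ℝ) : ℂ)) := Complex.continuous_ofReal.comp (f2_cont_gg ht)
    have h3 : Continuous (fun τ => (((ep τ t - 1 / Real.sin t ^ 2 : ℝ)) : ℂ)) :=
      Complex.continuous_ofReal.comp ((f3_cont_ep ht).sub continuous_const)
    fun_prop
  have key := hasDerivAt_integral_of_dominated_loc_of_deriv_le (μ := (volume : Measure ℝ)) (𝕜 := ℝ)
    (F := fun (t : ℝ) (τ : ℝ) => ((hh τ t : ℝ) : ℂ) ^ s * ((gg τ t : ℝ) : ℂ))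
    (F' := fun (t : ℝ) (τ : ℝ) => s * (((hh τ t : ℝ) : ℂ) ^ s * ((gg τ t : ℝ) : ℂ) ^ 2)
        + ((hh τ t : ℝ) : ℂ) ^ s * (((ep τ t - 1 / Real.sin t ^ 2 : ℝ)) : ℂ))
    (x₀ := θ) (s := Metric.ball θ δ)
    (bound := fun τ => (‖s‖ * (1 / (Real.sin θ / 2)) ^ 2 + (1 + (1 / (Real.sin θ / 2)) ^ 2))
      * Real.exp (-(s.re * |τ|)))
    (Metric.ball_mem_nhds θ hδ)
    (by
      filter_upwards [Metric.ball_mem_nhds θ hδ] with t ht
      exact (f2_integrable_g (hb t ht).1 hs).aestronglyMeasurable)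
    (f2_integrable_g h hs)
    (hcont θ h).aestronglyMeasurable
    (ae_of_all _ fun τ t ht => ?_)
    ((f2_int hs).const_mul _)
    (ae_of_all _ fun τ t ht => hderiv t (hb t ht).1 τ)
  · have h1 : HasDerivAt (fun t => fp s t) (s * ∫ τ : ℝ, (s * (((hh τ θ : ℝ) : ℂ) ^ s * ((gg τ θ : ℝ) : ℂ) ^ 2)
        + ((hh τ θ : ℝ) : ℂ) ^ s * (((ep τ θ - 1 / Real.sin θ ^ 2 : ℝ)) : ℂ))) θ := key.2.const_mul s
    refine h1.congr_deriv ?_
    have hS : ((Real.sin θ : ℝ) : ℂ) ≠ 0 := by exact_mod_cast (sin_pos' h).ne'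
    have h2 : ∀ τ : ℝ, (s * (((hh τ θ : ℝ) : ℂ) ^ s * ((gg τ θ : ℝ) : ℂ) ^ 2)
        + ((hh τ θ : ℝ) : ℂ) ^ s * (((ep τ θ - 1 / Real.sin θ ^ 2 : ℝ)) : ℂ))
        = (s - 1) / ((Real.sin θ : ℝ) : ℂ) ^ 2 * ((hh τ θ : ℝ) : ℂ) ^ s
          + (((hh τ θ : ℝ) : ℂ) ^ s * ((ep τ θ : ℝ) : ℂ) - s * (((hh τ θ : ℝ) : ℂ) ^ s * ((ee τ θ : ℝ) : ℂ) ^ 2)) := by
      intro τ
      have h3 : ((gg τ θ : ℝ) : ℂ) ^ 2 = 1 / ((Real.sin θ : ℝ) : ℂ) ^ 2 - ((ee τ θ : ℝ) : ℂ) ^ 2 := by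
        have := key_id h τ
        have h4 : gg τ θ ^ 2 = 1 / Real.sin θ ^ 2 - ee τ θ ^ 2 := by linarith
        exact_mod_cast h4
      rw [h3]
      push_cast
      ring
    simp_rw [h2]
    rw [integral_add ((f2_integrable h hs).const_mul _) (f3_int_zero h hs).1, (f3_int_zero h hs).2, add_zero,
      integral_const_mul]
    unfold ff
    ring
  · have ht1 := (hb t ht).1
    have ht2 := (hb t ht).2
    have hsp := sin_pos' h
    have h1 : hh τ t ^ s.re ≤ Real.exp (-(s.re * |τ|)) := by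
      refine (f2_bound ht1 τ hs).trans ?_
      have h2 : Real.sin t ^ s.re ≤ 1 := Real.rpow_le_one (sin_pos' ht1).le (Real.sin_le_one t) hs.le
      nlinarith [(Real.exp_pos (-(s.re * |τ|))).le]
    have h5 : 0 ≤ hh τ t ^ s.re := (Real.rpow_pos_of_pos (hh_pos ht1 τ) _).le
    have h3 : ‖((gg τ t : ℝ) : ℂ)‖ ≤ 1 / (Real.sin θ / 2) := by
      rw [Complex.norm_real, Real.norm_eq_abs, abs_of_nonneg (gg_nonneg ht1 τ)]
      exact (gg_le ht1 τ).trans (one_div_le_one_div_of_le (by linarith) ht2)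
    have h4 : ‖(((ep τ t - 1 / Real.sin t ^ 2 : ℝ)) : ℂ)‖ ≤ 1 + (1 / (Real.sin θ / 2)) ^ 2 := by
      rw [Complex.norm_real, Real.norm_eq_abs]
      have h6 : 1 / Real.sin t ^ 2 ≤ (1 / (Real.sin θ / 2)) ^ 2 := by
        rw [div_pow, one_pow]
        refine one_div_le_one_div_of_le (by positivity) ?_
        exact pow_le_pow_left₀ (by linarith) ht2 2
      have h7 := ep_nonneg ht1 τ
      have h8 := ep_le ht1 τ
      have h9 : 0 ≤ 1 / Real.sin t ^ 2 := by positivity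
      rw [abs_le]
      constructor <;> linarith
    calc _ ≤ ‖s * (((hh τ t : ℝ) : ℂ) ^ s * ((gg τ t : ℝ) : ℂ) ^ 2)‖
          + ‖((hh τ t : ℝ) : ℂ) ^ s * (((ep τ t - 1 / Real.sin t ^ 2 : ℝ)) : ℂ)‖ := norm_add_le _ _
      _ ≤ ‖s‖ * (hh τ t ^ s.re * (1 / (Real.sin θ / 2)) ^ 2) + hh τ t ^ s.re * (1 + (1 / (Real.sin θ / 2)) ^ 2) := by
          rw [norm_mul, norm_mul, norm_mul, norm_pow, f2_norm ht1]
          gcongr
      _ = (‖s‖ * (1 / (Real.sin θ / 2)) ^ 2 + (1 + (1 / (Real.sin θ / 2)) ^ 2)) * hh τ t ^ s.re := by ring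
      _ ≤ _ := by gcongr

/-! ### holomorphy in `s` -/

theorem ff_diff {θ : ℝ} (h : θ ∈ II) : DifferentiableOn ℂ (fun s => ff s θ) {s | 0 < s.re} := by
  have := ml (volume : Measure ℝ) (fun τ => hh τ θ) (fun _ => 1) (hh_pos h) (hh_le_one h)
    (f2_cont_hh h).aestronglyMeasurable aestronglyMeasurable_const 0 (fun σ hσ => ?_)
  · refine this.congr (fun s _ => ?_)
    simp only [ff, mul_one]
  · refine ((f2_int hσ).const_mul (Real.sin θ ^ σ)).mono' ?_ (ae_of_all _ fun τ => ?_)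
    · refine Continuous.aestronglyMeasurable ?_
      simp only [norm_one, mul_one]
      exact (f2_cont_hh h).rpow_const (fun τ => Or.inl (hh_pos h τ).ne')
    · rw [norm_one, mul_one, Real.norm_eq_abs, abs_of_nonneg (Real.rpow_pos_of_pos (hh_pos h τ) _).le]
      exact f2_bound h τ hσ

theorem fp_diff {θ : ℝ} (h : θ ∈ II) : DifferentiableOn ℂ (fun s => fp s θ) {s | 0 < s.re} := by
  have := ml (volume : Measure ℝ) (fun τ => hh τ θ) (fun τ => ((gg τ θ : ℝ) : ℂ)) (hh_pos h) (hh_le_one h)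
    (f2_cont_hh h).aestronglyMeasurable
    (Complex.continuous_ofReal.comp (f2_cont_gg h)).aestronglyMeasurable 0 (fun σ hσ => ?_)
  · exact differentiableOn_id.mul this
  · refine ((f2_int hσ).const_mul (Real.sin θ ^ σ * (1 / Real.sin θ))).mono' ?_ (ae_of_all _ fun τ => ?_)
    · refine Continuous.aestronglyMeasurable ?_
      refine ((f2_cont_hh h).rpow_const (fun τ => Or.inl (hh_pos h τ).ne')).mul ?_
      exact (Complex.continuous_ofReal.comp (f2_cont_gg h)).norm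
    · rw [Complex.norm_real, Real.norm_eq_abs, Real.norm_eq_abs, abs_of_nonneg (gg_nonneg h τ),
        abs_of_nonneg (mul_nonneg (Real.rpow_pos_of_pos (hh_pos h τ) _).le (gg_nonneg h τ))]
      calc hh τ θ ^ σ * gg τ θ ≤ (Real.sin θ ^ σ * Real.exp (-(σ * |τ|))) * (1 / Real.sin θ) :=
            mul_le_mul (f2_bound h τ hσ) (gg_le h τ) (gg_nonneg h τ) (by
              have := (sin_pos' h).le
              positivity)
        _ = _ := by ring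

end Pool.Agent.SP
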