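import Pool.Agent.Lib_helper58.SP.F3

/-! The Wronskian of `f_s` and its conjugate for `s = 1/2 + i κ`. -/

namespace Pool.Agent.SP

open MeasureTheory Set Filter Topology ComplexConjugate

/-- `1/(2(cosh τ + c))` -/
noncomputable def qq (c τ : ℝ) : ℝ := 1 / (2 * (Real.cosh τ + c))

/-- the leading coefficient of `f_s` at `0` -/
noncomputable def bb (s : ℂ) : ℂ := ∫ τ : ℝ, ((qq 1 τ : ℝ) : ℂ) ^ s

/-- the logistic function -/
noncomputable def lgs (τ : ℝ) : ℝ := 1 / (1 + Real.exp (-τ))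

theorem lgs_pos (τ : ℝ) : 0 < lgs τ := by
  have := Real.exp_pos (-τ)
  unfold lgs
  positivity

theorem lgs_lt (τ : ℝ) : lgs τ < 1 := by
  have := Real.exp_pos (-τ)
  unfold lgs
  rw [div_lt_one (by positivity)]
  linarith

theorem lgs_mul (τ : ℝ) : lgs τ * (1 - lgs τ) = qq 1 τ := by
  have h0 := Real.exp_pos (-τ)
  have h1 := Real.exp_pos τ
  have h2 : Real.exp τ * Real.exp (-τ) = 1 := by rw [← Real.exp_add]; simp
  unfold lgs qq
  rw [Real.cosh_eq]
  have h3 : (1 + Real.exp (-τ)) ≠ 0 := by positivity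
  have h4 : (2 * ((Real.exp τ + Real.exp (-τ)) / 2 + 1)) ≠ 0 := by positivity
  have h5 : 1 - 1 / (1 + Real.exp (-τ)) = Real.exp (-τ) / (1 + Real.exp (-τ)) := by
    field_simp
    ring
  rw [h5, div_mul_div_comm, div_eq_div_iff (by positivity) h4]
  linear_combination h2

theorem lgs_deriv (τ : ℝ) : HasDerivAt lgs (qq 1 τ) τ := by
  have h0 := Real.exp_pos (-τ)
  have h3 : (1 + Real.exp (-τ)) ≠ 0 := by positivity
  have h1 : HasDerivAt (fun t : ℝ => 1 + Real.exp (-t)) (Real.exp (-τ) * -1) τ := by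
    exact ((hasDerivAt_neg τ).exp).const_add 1
  have h2 : HasDerivAt (fun t : ℝ => 1 / (1 + Real.exp (-t)))
      ((0 * (1 + Real.exp (-τ)) - 1 * (Real.exp (-τ) * -1)) / (1 + Real.exp (-τ)) ^ 2) τ :=
    (hasDerivAt_const τ (1 : ℝ)).div h1 h3
  refine HasDerivAt.congr_deriv (f := lgs) h2 ?_
  rw [← lgs_mul]
  unfold lgs
  field_simp
  ring

theorem lgs_image : lgs '' univ = Ioo 0 1 := by
  ext u
  simp only [image_univ, mem_range, mem_Ioo]
  constructor
  · rintro ⟨τ, rfl⟩
    exact ⟨lgs_pos τ, lgs_lt τ⟩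
  · rintro ⟨h0, h1⟩
    refine ⟨-Real.log ((1 - u) / u), ?_⟩
    unfold lgs
    rw [neg_neg, Real.exp_log (by apply div_pos <;> linarith)]
    field_simp
    ring

theorem lgs_inj : InjOn lgs univ := by
  intro a _ b _ hab
  unfold lgs at hab
  have ha := Real.exp_pos (-a)
  have hb := Real.exp_pos (-b)
  have h3 : (1 + Real.exp (-a)) ≠ 0 := by positivity
  have h4 : (1 + Real.exp (-b)) ≠ 0 := by positivity
  rw [div_eq_div_iff h3 h4] at hab
  have h5 : Real.exp (-a) = Real.exp (-b) := by linarith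
  have := Real.exp_injective h5
  linarith

theorem bb_eq (s : ℂ) : bb s = Complex.betaIntegral s s := by
  have h := integral_image_eq_integral_abs_deriv_smul (s := univ) (f := lgs) (f' := fun τ => qq 1 τ)
    MeasurableSet.univ (fun τ _ => (lgs_deriv τ).hasDerivWithinAt) lgs_inj
    (fun x : ℝ => (x : ℂ) ^ (s - 1) * (1 - (x : ℂ)) ^ (s - 1))
  rw [lgs_image, setIntegral_univ] at h
  rw [Complex.betaIntegral, intervalIntegral.integral_of_le zero_le_one, integral_Ioc_eq_integral_Ioo, h, bb]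
  refine integral_congr_ae (ae_of_all _ fun τ => ?_)
  have hl := lgs_pos τ
  have hl1 : 0 < 1 - lgs τ := by linarith [lgs_lt τ]
  have hq : 0 < qq 1 τ := by rw [← lgs_mul]; positivity
  have hqc : ((qq 1 τ : ℝ) : ℂ) ≠ 0 := by exact_mod_cast hq.ne'
  have e1 : (1 - ((lgs τ : ℝ) : ℂ)) = (((1 - lgs τ : ℝ)) : ℂ) := by push_cast; ring
  simp only
  rw [e1, ← Complex.mul_cpow_ofReal_nonneg hl.le hl1.le, abs_of_pos hq, ← Complex.ofReal_mul, lgs_mul,
    Complex.cpow_sub _ _ hqc, Complex.cpow_one, Complex.real_smul]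
  field_simp

theorem bb_ne {s : ℂ} (hs : 0 < s.re) : bb s ≠ 0 := by
  rw [bb_eq]
  intro h
  have h1 := Complex.Gamma_mul_Gamma_eq_betaIntegral hs hs
  rw [h, mul_zero] at h1
  have h2 := Complex.Gamma_ne_zero_of_re_pos hs
  exact h2 (mul_self_eq_zero.mp h1)

/-- `(sin θ)^(-s) f_s` -/
noncomputable def AA (s : ℂ) (θ : ℝ) : ℂ := ∫ τ : ℝ, ((qq (Real.cos θ) τ : ℝ) : ℂ) ^ s

/-- `(sin θ)^(1-s) f_s' / s` -/
noncomputable def BB (s : ℂ) (θ : ℝ) : ℂ :=
  ∫ τ : ℝ, ((qq (Real.cos θ) τ : ℝ) : ℂ) ^ s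
    * (((Real.cos θ * Real.cosh τ + 1) / (Real.cosh τ + Real.cos θ) : ℝ) : ℂ)

theorem qq_pos {c : ℝ} (hc : 0 ≤ c) (τ : ℝ) : 0 < qq c τ := by
  have := Real.cosh_pos τ
  unfold qq
  positivity

theorem qq_le {c : ℝ} (hc : 0 ≤ c) (τ : ℝ) : qq c τ ≤ Real.exp (-|τ|) := by
  unfold qq
  rw [Real.exp_neg, ← one_div]
  refine one_div_le_one_div_of_le (Real.exp_pos _) ?_
  have := exp_le_two_cosh τ
  linarith

theorem qq_bound {c : ℝ} (hc : 0 ≤ c) (τ : ℝ) {s : ℂ} (hs : 0 < s.re) :
    ‖((qq c τ : ℝ) : ℂ) ^ s‖ ≤ Real.exp (-(s.re * |τ|)) := by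
  rw [Complex.norm_cpow_eq_rpow_re_of_pos (qq_pos hc τ)]
  calc qq c τ ^ s.re ≤ (Real.exp (-|τ|)) ^ s.re := Real.rpow_le_rpow (qq_pos hc τ).le (qq_le hc τ) hs.le
    _ = _ := by
        rw [← Real.exp_mul]
        congr 1
        ring

theorem ff_eq_AA {θ : ℝ} (h : θ ∈ II) (s : ℂ) : ff s θ = ((Real.sin θ : ℝ) : ℂ) ^ s * AA s θ := by
  rw [ff, AA, ← integral_const_mul]
  refine integral_congr_ae (ae_of_all _ fun τ => ?_)
  simp only
  rw [← Complex.mul_cpow_ofReal_nonneg (sin_pos' h).le (qq_pos (cos_pos' h).le τ).le, ← Complex.ofReal_mul]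
  congr 2
  unfold hh qq
  ring

theorem fp_eq_BB {θ : ℝ} (h : θ ∈ II) (s : ℂ) :
    fp s θ = s * (((Real.sin θ : ℝ) : ℂ) ^ s / ((Real.sin θ : ℝ) : ℂ)) * BB s θ := by
  rw [fp, BB, mul_assoc]
  congr 1
  rw [← integral_const_mul]
  refine integral_congr_ae (ae_of_all _ fun τ => ?_)
  simp only
  have h1 : ((hh τ θ : ℝ) : ℂ) ^ s = ((Real.sin θ : ℝ) : ℂ) ^ s * ((qq (Real.cos θ) τ : ℝ) : ℂ) ^ s := by
    rw [← Complex.mul_cpow_ofReal_nonneg (sin_pos' h).le (qq_pos (cos_pos' h).le τ).le, ← Complex.ofReal_mul]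
    congr 2
    unfold hh qq
    ring
  have hS : ((Real.sin θ : ℝ) : ℂ) ≠ 0 := by exact_mod_cast (sin_pos' h).ne'
  have h2 : ((gg τ θ : ℝ) : ℂ) = (1 / ((Real.sin θ : ℝ) : ℂ))
      * (((Real.cos θ * Real.cosh τ + 1) / (Real.cosh τ + Real.cos θ) : ℝ) : ℂ) := by
    unfold gg
    rw [← Complex.ofReal_one, ← Complex.ofReal_div, ← Complex.ofReal_mul]
    congr 1
    have := (den_pos h τ).ne'
    have := (sin_pos' h).ne'
    field_simp
  rw [h1, h2]
  ring

theorem AA_tendsto {s : ℂ} (hs : 0 < s.re) : Tendsto (AA s) (𝓝[>] 0) (𝓝 (bb s)) := by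
  have hev : ∀ᶠ θ in 𝓝[>] (0 : ℝ), θ ∈ II := Ioo_mem_nhdsGT (by positivity)
  unfold AA bb
  refine tendsto_integral_filter_of_dominated_convergence (fun τ => Real.exp (-(s.re * |τ|))) ?_ ?_ (f2_int hs) ?_
  · filter_upwards [hev] with θ hθ
    refine Continuous.aestronglyMeasurable ?_
    refine Continuous.cpow (Complex.continuous_ofReal.comp ?_) continuous_const (fun τ => ?_)
    · unfold qq
      refine continuous_const.div (by fun_prop) (fun τ => ?_)
      have := den_pos hθ τ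
      positivity
    · exact Or.inl (by simpa using qq_pos (cos_pos' hθ).le τ)
  · filter_upwards [hev] with θ hθ
    exact ae_of_all _ fun τ => qq_bound (cos_pos' hθ).le τ hs
  · refine ae_of_all _ fun τ => ?_
    have h1 : ContinuousAt (fun θ : ℝ => ((qq (Real.cos θ) τ : ℝ) : ℂ) ^ s) 0 := by
      refine ContinuousAt.cpow (Complex.continuous_ofReal.continuousAt.comp ?_) continuousAt_const ?_
      · unfold qq
        refine ContinuousAt.div continuousAt_const (by fun_prop) ?_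
        have := Real.cosh_pos τ
        simp only [Real.cos_zero]
        positivity
      · exact Or.inl (by simpa using qq_pos (by simp : (0 : ℝ) ≤ Real.cos 0) τ)
    have h2 := h1.tendsto
    rw [Real.cos_zero] at h2
    exact h2.mono_left nhdsWithin_le_nhds

theorem BB_tendsto {s : ℂ} (hs : 0 < s.re) : Tendsto (BB s) (𝓝[>] 0) (𝓝 (bb s)) := by
  have hev : ∀ᶠ θ in 𝓝[>] (0 : ℝ), θ ∈ II := Ioo_mem_nhdsGT (by positivity)
  have hbb : bb s = ∫ τ : ℝ, ((qq 1 τ : ℝ) : ℂ) ^ s * 1 := by simp [bb]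
  rw [hbb]
  unfold BB
  refine tendsto_integral_filter_of_dominated_convergence (fun τ => Real.exp (-(s.re * |τ|))) ?_ ?_ (f2_int hs) ?_
  · filter_upwards [hev] with θ hθ
    refine Continuous.aestronglyMeasurable ?_
    refine Continuous.mul ?_ (Complex.continuous_ofReal.comp ?_)
    · refine Continuous.cpow (Complex.continuous_ofReal.comp ?_) continuous_const (fun τ => ?_)
      · unfold qq
        refine continuous_const.div (by fun_prop) (fun τ => ?_)
        have := den_pos hθ τ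
        positivity
      · exact Or.inl (by simpa using qq_pos (cos_pos' hθ).le τ)
    · refine Continuous.div (by fun_prop) (by fun_prop) (fun τ => (den_pos hθ τ).ne')
  · filter_upwards [hev] with θ hθ
    refine ae_of_all _ fun τ => ?_
    rw [norm_mul]
    have h1 := qq_bound (cos_pos' hθ).le τ hs
    have h2 : ‖(((Real.cos θ * Real.cosh τ + 1) / (Real.cosh τ + Real.cos θ) : ℝ) : ℂ)‖ ≤ 1 := by
      rw [Complex.norm_real, Real.norm_eq_abs]
      have h3 := cos_pos' hθ
      have h4 := Real.one_le_cosh τ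
      have h5 := den_pos hθ τ
      have h6 := Real.cos_le_one θ
      rw [abs_of_nonneg (by positivity), div_le_one h5]
      nlinarith [mul_nonneg (sub_nonneg.mpr h4) (sub_nonneg.mpr h6)]
    calc _ ≤ Real.exp (-(s.re * |τ|)) * 1 := mul_le_mul h1 h2 (norm_nonneg _) (Real.exp_pos _).le
      _ = _ := mul_one _
  · refine ae_of_all _ fun τ => ?_
    have h1 : ContinuousAt (fun θ : ℝ => ((qq (Real.cos θ) τ : ℝ) : ℂ) ^ s) 0 := by
      refine ContinuousAt.cpow (Complex.continuous_ofReal.continuousAt.comp ?_) continuousAt_const ?_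
      · unfold qq
        refine ContinuousAt.div continuousAt_const (by fun_prop) ?_
        have := Real.cosh_pos τ
        simp only [Real.cos_zero]
        positivity
      · exact Or.inl (by simpa using qq_pos (by simp : (0 : ℝ) ≤ Real.cos 0) τ)
    have h3 : ContinuousAt (fun θ : ℝ =>
        (((Real.cos θ * Real.cosh τ + 1) / (Real.cosh τ + Real.cos θ) : ℝ) : ℂ)) 0 := by
      refine Complex.continuous_ofReal.continuousAt.comp ?_
      refine ContinuousAt.div (by fun_prop) (by fun_prop) ?_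
      have := Real.cosh_pos τ
      simp only [Real.cos_zero]
      positivity
    have h2 := (h1.mul h3).tendsto
    have h4 : (((Real.cos 0 * Real.cosh τ + 1) / (Real.cosh τ + Real.cos 0) : ℝ) : ℂ) = 1 := by
      rw [Real.cos_zero, one_mul, div_self (by have := Real.cosh_pos τ; positivity), Complex.ofReal_one]
    simp only [Pi.mul_apply] at h2
    rw [h4, Real.cos_zero] at h2
    exact h2.mono_left nhdsWithin_le_nhds

/-- the Wronskian of `f_s` and `conj f_s` -/
noncomputable def wr (s : ℂ) (θ : ℝ) : ℂ := fp s θ * conj (ff s θ) - ff s θ * conj (fp s θ)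

theorem wr_const {κ : ℝ} {θ θ' : ℝ} (h : θ ∈ II) (h' : θ' ∈ II) :
    wr (1 / 2 + Complex.I * κ) θ = wr (1 / 2 + Complex.I * κ) θ' := by
  set s : ℂ := 1 / 2 + Complex.I * κ with hs
  have hre : s.re = 1 / 2 := by rw [hs]; simp
  have hspos : 0 < s.re := by rw [hre]; norm_num
  have hss : conj (s * (s - 1)) = s * (s - 1) := by
    have : s * (s - 1) = ((-(1 / 4 + κ ^ 2) : ℝ) : ℂ) := by
      rw [hs]
      push_cast
      ring_nf
      rw [Complex.I_sq]
      ring
    rw [this, Complex.conj_ofReal]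
  have hd : ∀ t ∈ II, HasDerivAt (wr s) 0 t := by
    intro t ht
    have h1 := ff_hasDeriv ht hspos
    have h2 := fp_hasDeriv ht hspos
    have h3 : HasDerivAt (fun t => conj (ff s t)) (conj (fp s t)) t := h1.star
    have h4 : HasDerivAt (fun t => conj (fp s t)) (conj (s * (s - 1) / ((Real.sin t : ℝ) : ℂ) ^ 2 * ff s t)) t :=
      h2.star
    refine ((h2.mul h3).sub (h1.mul h4)).congr_deriv ?_
    rw [map_mul, map_div₀, hss, map_pow, Complex.conj_ofReal]
    ring
  refine IsOpen.is_const_of_deriv_eq_zero isOpen_Ioo isPreconnected_Ioo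
    (fun t ht => (hd t ht).differentiableAt.differentiableWithinAt) (fun t ht => (hd t ht).deriv) h h'

theorem wr_ne {κ : ℝ} (hκ : κ ≠ 0) {θ : ℝ} (h : θ ∈ II) : wr (1 / 2 + Complex.I * κ) θ ≠ 0 := by
  set s : ℂ := 1 / 2 + Complex.I * κ with hs
  have hre : s.re = 1 / 2 := by rw [hs]; simp
  have hspos : 0 < s.re := by rw [hre]; norm_num
  have hev : ∀ᶠ t in 𝓝[>] (0 : ℝ), t ∈ II := Ioo_mem_nhdsGT (by positivity)
  have h1 : ∀ t ∈ II, wr s t = s * BB s t * conj (AA s t) - AA s t * conj (s * BB s t) := by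
    intro t ht
    have hS := sin_pos' ht
    have hSc : ((Real.sin t : ℝ) : ℂ) ≠ 0 := by exact_mod_cast hS.ne'
    have h2 : ((Real.sin t : ℝ) : ℂ) ^ s * conj (((Real.sin t : ℝ) : ℂ) ^ s) = ((Real.sin t : ℝ) : ℂ) := by
      rw [Complex.mul_conj, Complex.normSq_eq_norm_sq, Complex.norm_cpow_eq_rpow_re_of_pos hS, hre,
        ← Real.rpow_natCast, ← Real.rpow_mul hS.le]
      norm_num
    rw [wr, ff_eq_AA ht, fp_eq_BB ht]
    simp only [map_mul, map_div₀, Complex.conj_ofReal]
    field_simp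
    linear_combination (s * BB s t * conj (AA s t) - AA s t * conj s * conj (BB s t)) * h2
  have h3 : Tendsto (wr s) (𝓝[>] 0) (𝓝 (s * bb s * conj (bb s) - bb s * conj (s * bb s))) := by
    have h4 : Tendsto (fun t => s * BB s t * conj (AA s t) - AA s t * conj (s * BB s t)) (𝓝[>] 0)
        (𝓝 (s * bb s * conj (bb s) - bb s * conj (s * bb s))) := by
      have hA := AA_tendsto hspos
      have hB := BB_tendsto hspos
      have hsB := hB.const_mul s
      have c1 : Tendsto (fun t => conj (AA s t)) (𝓝[>] 0) (𝓝 (conj (bb s))) :=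
        (Complex.continuous_conj.tendsto _).comp hA
      have c2 : Tendsto (fun t => conj (s * BB s t)) (𝓝[>] 0) (𝓝 (conj (s * bb s))) :=
        (Complex.continuous_conj.tendsto _).comp hsB
      exact (hsB.mul c1).sub (hA.mul c2)
    refine h4.congr' ?_
    filter_upwards [hev] with t ht
    exact (h1 t ht).symm
  have h5 : Tendsto (wr s) (𝓝[>] 0) (𝓝 (wr s θ)) := by
    refine tendsto_const_nhds.congr' ?_
    filter_upwards [hev] with t ht
    exact wr_const h ht
  have h6 := tendsto_nhds_unique h5 h3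
  rw [h6]
  have h7 : s * bb s * conj (bb s) - bb s * conj (s * bb s) = (s - conj s) * (bb s * conj (bb s)) := by
    rw [map_mul]
    ring
  rw [h7]
  have h8 : s - conj s = 2 * Complex.I * κ := by
    rw [hs]
    simp only [map_add, map_div₀, map_one, map_mul, Complex.conj_I, Complex.conj_ofReal, map_ofNat]
    ring
  rw [h8, Complex.mul_conj]
  have h9 : Complex.normSq (bb s) ≠ 0 := by
    rw [Ne, Complex.normSq_eq_zero]
    exact bb_ne hspos
  have h10 : ((Complex.normSq (bb s) : ℝ) : ℂ) ≠ 0 := by exact_mod_cast h9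
  have h11 : ((κ : ℝ) : ℂ) ≠ 0 := by exact_mod_cast hκ
  exact mul_ne_zero (mul_ne_zero (mul_ne_zero two_ne_zero Complex.I_ne_zero) h11) h10

end Pool.Agent.SP
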