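import Mathlib

/-! Holomorphy of parameter integrals from local domination only. -/

namespace Pool.Agent.SP

open MeasureTheory Set Filter Topology

theorem hol_int {Ω : Type*} [MeasurableSpace Ω] (μ : Measure Ω) (F : ℂ → Ω → ℂ) (U : Set ℂ)
    (hmeas : ∀ s ∈ U, AEStronglyMeasurable (F s) μ)
    (hd : ∀ᵐ x ∂μ, DifferentiableOn ℂ (fun s => F s x) U)
    (hb : ∀ s ∈ U, ∃ r > 0, Metric.ball s r ⊆ U ∧ ∃ b : Ω → ℝ, Integrable b μ ∧
      ∀ᵐ x ∂μ, ∀ z ∈ Metric.ball s r, ‖F z x‖ ≤ b x) :
    DifferentiableOn ℂ (fun s => ∫ x, F s x ∂μ) U := by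
  intro s hs
  obtain ⟨r, hr, hrU, b, hbi, hbd⟩ := hb s hs
  have hball : ∀ z ∈ Metric.ball s (r / 2), Metric.closedBall z (r / 4) ⊆ Metric.ball s r := by
    intro z hz w hw
    rw [Metric.mem_ball] at hz ⊢
    rw [Metric.mem_closedBall] at hw
    calc dist w s ≤ dist w z + dist z s := dist_triangle _ _ _
      _ < r := by linarith
  have hsub : Metric.ball s (r / 2) ⊆ Metric.ball s r := Metric.ball_subset_ball (by linarith)
  have hDU : ∀ᵐ x ∂μ, ∀ z ∈ Metric.ball s (r / 2), HasDerivAt (fun w => F w x) (deriv (fun w => F w x) z) z := by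
    filter_upwards [hd] with x hx z hz
    have h1 : DifferentiableOn ℂ (fun w => F w x) (Metric.ball s r) := hx.mono hrU
    exact (h1.differentiableAt (Metric.isOpen_ball.mem_nhds (hsub hz))).hasDerivAt
  have hder : ∀ᵐ x ∂μ, ∀ z ∈ Metric.ball s (r / 2), ‖deriv (fun w => F w x) z‖ ≤ b x / (r / 4) := by
    filter_upwards [hd, hbd] with x hx hbx z hz
    refine Complex.norm_deriv_le_of_forall_mem_sphere_norm_le (by positivity) ?_ ?_
    · refine DifferentiableOn.diffContOnCl ?_
      rw [closure_ball _ (by positivity : r / 4 ≠ 0)]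
      exact hx.mono ((hball z hz).trans hrU)
    · intro w hw
      exact hbx w (hball z hz (Metric.sphere_subset_closedBall hw))
  have hsb : s ∈ Metric.ball s (r / 2) := Metric.mem_ball_self (by positivity)
  have hm' : AEStronglyMeasurable (fun x => deriv (fun w => F w x) s) μ := by
    have hlim : ∀ᵐ x ∂μ, Tendsto (fun n : ℕ => ((1 / ((n : ℂ) + 1)))⁻¹ • (F (s + 1 / ((n : ℂ) + 1)) x - F s x))
        atTop (𝓝 (deriv (fun w => F w x) s)) := by
      filter_upwards [hDU] with x hx
      have h1 := (hx s hsb)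
      rw [hasDerivAt_iff_tendsto_slope_zero] at h1
      refine h1.comp ?_
      refine tendsto_nhdsWithin_iff.mpr ⟨tendsto_one_div_add_atTop_nhds_zero_nat, Eventually.of_forall fun n => ?_⟩
      have : ((n : ℂ) + 1) ≠ 0 := Nat.cast_add_one_ne_zero n
      simp [this]
    have hev : ∀ᶠ n : ℕ in atTop, s + 1 / ((n : ℂ) + 1) ∈ Metric.ball s r := by
      have h2 : Tendsto (fun n : ℕ => s + 1 / ((n : ℂ) + 1)) atTop (𝓝 s) := by
        have := (tendsto_one_div_add_atTop_nhds_zero_nat (𝕜 := ℂ)).const_add s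
        simpa using this
      exact h2 (Metric.ball_mem_nhds s hr)
    obtain ⟨N, hN⟩ := eventually_atTop.mp hev
    have hlim2 : ∀ᵐ x ∂μ, Tendsto (fun n : ℕ => ((1 / (((n + N : ℕ) : ℂ) + 1)))⁻¹
        • (F (s + 1 / (((n + N : ℕ) : ℂ) + 1)) x - F s x)) atTop (𝓝 (deriv (fun w => F w x) s)) := by
      filter_upwards [hlim] with x hx
      exact (tendsto_add_atTop_iff_nat N).mpr hx
    refine aestronglyMeasurable_of_tendsto_ae atTop (fun n => ?_) hlim2
    have h3 : AEStronglyMeasurable (fun x => F (s + 1 / (((n + N : ℕ) : ℂ) + 1)) x - F s x) μ :=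
      (hmeas _ (hrU (hN (n + N) (by omega)))).sub (hmeas s hs)
    exact h3.const_smul ((1 / (((n + N : ℕ) : ℂ) + 1)))⁻¹
  have key := hasDerivAt_integral_of_dominated_loc_of_deriv_le (μ := μ) (𝕜 := ℂ)
    (F := F) (F' := fun z x => deriv (fun w => F w x) z) (x₀ := s) (s := Metric.ball s (r / 2))
    (bound := fun x => b x / (r / 4))
    (Metric.ball_mem_nhds s (by positivity))
    (by
      filter_upwards [Metric.ball_mem_nhds s (show (0 : ℝ) < r / 2 by positivity)] with z hz
      exact hmeas z (hrU (hsub hz)))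
    (by
      refine hbi.mono' (hmeas s hs) ?_
      filter_upwards [hbd] with x hx
      exact hx s (Metric.mem_ball_self hr))
    hm' hder (hbi.div_const _) hDU
  exact key.2.differentiableAt.differentiableWithinAt

end Pool.Agent.SP
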