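import Mathlib

/-! Holomorphy of `s ↦ ∫ h^s w`. -/

namespace Pool.Agent.SP

open MeasureTheory Set Filter Topology

theorem ml_log_bound {h : ℝ} (h0 : 0 < h) (h1 : h ≤ 1) {e : ℝ} (he : 0 < e) :
    |Real.log h| * h ^ e ≤ 1 / e := by
  have h2 : Real.log h ≤ 0 := Real.log_nonpos h0.le h1
  rw [abs_of_nonpos h2]
  have h3 : -Real.log h * e ≤ Real.exp (-Real.log h * e) := by
    have := Real.add_one_le_exp (-Real.log h * e)
    linarith
  have h4 : h ^ e = Real.exp (Real.log h * e) := Real.rpow_def_of_pos h0 e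
  rw [h4, le_div_iff₀ he]
  have h5 : Real.exp (-Real.log h * e) * Real.exp (Real.log h * e) = 1 := by
    rw [← Real.exp_add]
    simp
  calc -Real.log h * Real.exp (Real.log h * e) * e
      = (-Real.log h * e) * Real.exp (Real.log h * e) := by ring
    _ ≤ Real.exp (-Real.log h * e) * Real.exp (Real.log h * e) :=
        mul_le_mul_of_nonneg_right h3 (Real.exp_pos _).le
    _ = 1 := h5

/-- `s ↦ ∫ h^s w` is holomorphic in `Re s > σ₀` if `h^σ |w|` is integrable for `σ > σ₀`. -/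
theorem ml {Ω : Type*} [MeasurableSpace Ω] (μ : Measure Ω) (h : Ω → ℝ) (w : Ω → ℂ)
    (h0 : ∀ x, 0 < h x) (h1 : ∀ x, h x ≤ 1) (hm : AEStronglyMeasurable h μ)
    (hw : AEStronglyMeasurable w μ) (σ₀ : ℝ)
    (hi : ∀ σ : ℝ, σ₀ < σ → Integrable (fun x => (h x) ^ σ * ‖w x‖) μ) :
    DifferentiableOn ℂ (fun s : ℂ => ∫ x, ((h x : ℝ) : ℂ) ^ s * w x ∂μ) {s | σ₀ < s.re} := by
  intro s hs
  have hs' : σ₀ < s.re := hs
  set δ : ℝ := (s.re - σ₀) / 4 with hδ
  have hδ0 : 0 < δ := by rw [hδ]; linarith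
  have hmeas : ∀ z : ℂ, AEStronglyMeasurable (fun x => ((h x : ℝ) : ℂ) ^ z) μ := by
    intro z
    have hh : AEStronglyMeasurable (fun x => ((h x : ℝ) : ℂ)) μ :=
      Complex.continuous_ofReal.comp_aestronglyMeasurable hm
    exact (hh.aemeasurable.pow_const z).aestronglyMeasurable
  have hnorm : ∀ (z : ℂ) (x : Ω), ‖((h x : ℝ) : ℂ) ^ z‖ = (h x) ^ z.re := by
    intro z x
    exact Complex.norm_cpow_eq_rpow_re_of_pos (h0 x) z
  have hint : ∀ z : ℂ, σ₀ < z.re → Integrable (fun x => ((h x : ℝ) : ℂ) ^ z * w x) μ := by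
    intro z hz
    refine (hi z.re hz).mono' ((hmeas z).mul hw) (ae_of_all _ fun x => ?_)
    rw [norm_mul, hnorm]
  have key := hasDerivAt_integral_of_dominated_loc_of_deriv_le (μ := μ) (𝕜 := ℂ)
    (F := fun (z : ℂ) x => ((h x : ℝ) : ℂ) ^ z * w x)
    (F' := fun (z : ℂ) x => ((h x : ℝ) : ℂ) ^ z * Complex.log ((h x : ℝ) : ℂ) * w x)
    (x₀ := s) (s := Metric.ball s δ) (bound := fun x => (1 / δ) * ((h x) ^ (s.re - 2 * δ) * ‖w x‖))
    (Metric.ball_mem_nhds s hδ0)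
    (Eventually.of_forall fun z => (hmeas z).mul hw)
    (hint s hs')
    (((hmeas s).mul (by
      have hh : AEStronglyMeasurable (fun x => ((h x : ℝ) : ℂ)) μ :=
        Complex.continuous_ofReal.comp_aestronglyMeasurable hm
      exact (Complex.measurable_log.comp_aemeasurable hh.aemeasurable).aestronglyMeasurable)).mul hw)
    (ae_of_all _ fun x z hz => ?_)
    (((hi (s.re - 2 * δ) (by rw [hδ]; linarith)).const_mul (1 / δ)))
    (ae_of_all _ fun x z _ => ?_)
  · exact key.2.differentiableAt.differentiableWithinAt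
  · rw [norm_mul, norm_mul, hnorm]
    have hz1 : s.re - δ ≤ z.re := by
      have h2 : |(z - s).re| < δ := lt_of_le_of_lt (Complex.abs_re_le_norm _) (by
        simpa [dist_eq_norm] using hz)
      rw [Complex.sub_re] at h2
      have := (abs_lt.mp h2).1
      linarith
    have h3 : ‖Complex.log ((h x : ℝ) : ℂ)‖ = |Real.log (h x)| := by
      rw [← Complex.ofReal_log (h0 x).le, Complex.norm_real, Real.norm_eq_abs]
    rw [h3]
    have h4 : (h x) ^ z.re ≤ (h x) ^ (s.re - δ) :=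
      Real.rpow_le_rpow_of_exponent_ge (h0 x) (h1 x) hz1
    have h5 : (h x) ^ (s.re - δ) = (h x) ^ (s.re - 2 * δ) * (h x) ^ δ := by
      rw [← Real.rpow_add (h0 x)]
      congr 1
      ring
    have h6 := ml_log_bound (h0 x) (h1 x) hδ0
    have h7 : 0 ≤ (h x) ^ (s.re - 2 * δ) := (Real.rpow_pos_of_pos (h0 x) _).le
    calc (h x) ^ z.re * |Real.log (h x)| * ‖w x‖
        ≤ ((h x) ^ (s.re - 2 * δ) * (h x) ^ δ) * |Real.log (h x)| * ‖w x‖ := by
          rw [← h5]
          gcongr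
      _ = (h x) ^ (s.re - 2 * δ) * (|Real.log (h x)| * (h x) ^ δ) * ‖w x‖ := by ring
      _ ≤ (h x) ^ (s.re - 2 * δ) * (1 / δ) * ‖w x‖ := by gcongr
      _ = (1 / δ) * ((h x) ^ (s.re - 2 * δ) * ‖w x‖) := by ring
  · have h8 : ((h x : ℝ) : ℂ) ≠ 0 := by exact_mod_cast (h0 x).ne'
    have h9 : HasDerivAt (fun z : ℂ => ((h x : ℝ) : ℂ) ^ z) (((h x : ℝ) : ℂ) ^ z * Complex.log ((h x : ℝ) : ℂ)) z := by
      have := (hasDerivAt_id z).const_cpow (c := ((h x : ℝ) : ℂ)) (Or.inl h8)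
      simpa using this
    exact h9.mul_const _

end Pool.Agent.SP
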