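import Pool.Agent.Lib_helper58.SP.F4
import Pool.Agent.Lib_helper58.SP.Hol

/-! The one-dimensional theorem: a family of solutions of `-sin² c'' = λ c` whose sum is `o(θ^(1/2))`. -/

namespace Pool.Agent.SP

open MeasureTheory Set Filter Topology ComplexConjugate

/-- A countable family of solutions of `-sin² c'' = λ c` on `(0, π/2)`, absolutely summable with polynomial bounds. -/
structure SolFam {ι : Type*} (lam : ι → ℝ) (c c' : ι → ℝ → ℂ) (G : ℝ → ℂ) (A C : ℝ) : Prop where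
  A0 : 0 ≤ A
  d1 : ∀ i, ∀ θ ∈ II, HasDerivAt (c i) (c' i θ) θ
  d2 : ∀ i, ∀ θ ∈ II, HasDerivAt (c' i) (-((lam i / Real.sin θ ^ 2 : ℝ) : ℂ) * c i θ) θ
  s1 : ∀ θ ∈ II, Summable (fun i => ‖c i θ‖)
  b1 : ∀ θ ∈ II, ∑' i, ‖c i θ‖ ≤ C * θ ^ (-A)
  s2 : ∀ θ ∈ II, Summable (fun i => ‖c' i θ‖)
  b2 : ∀ θ ∈ II, ∑' i, ‖c' i θ‖ ≤ C * θ ^ (-A)
  hG : ∀ θ ∈ II, HasSum (fun i => c i θ) (G θ)
  cG : ContinuousOn G II

variable {ι : Type*} {lam : ι → ℝ} {c c' : ι → ℝ → ℂ} {G : ℝ → ℂ} {A C : ℝ}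

/-- the Wronskian of `f_s` and `c_i` -/
noncomputable def ww (c c' : ι → ℝ → ℂ) (i : ι) (s : ℂ) (θ : ℝ) : ℂ := fp s θ * c i θ - ff s θ * c' i θ

theorem lt_two {θ : ℝ} (h : θ ∈ II) : θ < 2 := by
  have := h.2
  have := Real.pi_lt_four
  linarith

theorem SolFam.Cn (H : SolFam lam c c' G A C) : 0 ≤ C := by
  have h1 : (1 : ℝ) ∈ II := ⟨one_pos, by linarith [Real.pi_gt_three]⟩
  have h2 := H.b1 1 h1
  rw [Real.one_rpow, mul_one] at h2
  exact (tsum_nonneg fun i => norm_nonneg _).trans h2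

theorem SolFam.b1i (H : SolFam lam c c' G A C) {θ : ℝ} (h : θ ∈ II) (i : ι) : ‖c i θ‖ ≤ C * θ ^ (-A) :=
  ((H.s1 θ h).le_tsum i fun _ _ => norm_nonneg _).trans (H.b1 θ h)

theorem SolFam.b2i (H : SolFam lam c c' G A C) {θ : ℝ} (h : θ ∈ II) (i : ι) : ‖c' i θ‖ ≤ C * θ ^ (-A) :=
  ((H.s2 θ h).le_tsum i fun _ _ => norm_nonneg _).trans (H.b2 θ h)

theorem ww_deriv (H : SolFam lam c c' G A C) {θ : ℝ} (h : θ ∈ II) {s : ℂ} (hs : 0 < s.re) (i : ι) :
    HasDerivAt (ww c c' i s) ((lam i - s * (1 - s)) * (ff s θ * c i θ / ((Real.sin θ : ℝ) : ℂ) ^ 2)) θ := by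
  refine (((fp_hasDeriv h hs).mul (H.d1 i θ h)).sub ((ff_hasDeriv h hs).mul (H.d2 i θ h))).congr_deriv ?_
  have hS : ((Real.sin θ : ℝ) : ℂ) ≠ 0 := by exact_mod_cast (sin_pos' h).ne'
  push_cast at hS ⊢
  field_simp
  ring

theorem sin_rpow_le {θ : ℝ} (h : θ ∈ II) {a : ℝ} (ha : 0 ≤ a) : Real.sin θ ^ a ≤ θ ^ a :=
  Real.rpow_le_rpow (sin_pos' h).le (Real.sin_le h.1.le) ha

theorem ff_div_bound {θ : ℝ} (h : θ ∈ II) {s : ℂ} (hs : 2 ≤ s.re) :
    ‖ff s θ / ((Real.sin θ : ℝ) : ℂ) ^ 2‖ ≤ θ ^ (s.re - 2) := by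
  have hs0 : 0 < s.re := by linarith
  have hS := sin_pos' h
  rw [norm_div, norm_pow, Complex.norm_real, Real.norm_eq_abs, abs_of_pos hS, div_le_iff₀ (by positivity)]
  calc ‖ff s θ‖ ≤ 2 / s.re * Real.sin θ ^ s.re := ff_norm_le h hs0
    _ ≤ 1 * Real.sin θ ^ s.re := by
        have : 2 / s.re ≤ 1 := by rw [div_le_one hs0]; exact hs
        have h1 : 0 ≤ Real.sin θ ^ s.re := by positivity
        nlinarith
    _ = Real.sin θ ^ (s.re - 2) * Real.sin θ ^ 2 := by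
        rw [one_mul, ← Real.rpow_natCast (Real.sin θ) 2, ← Real.rpow_add hS]
        norm_num
    _ ≤ θ ^ (s.re - 2) * Real.sin θ ^ 2 := by
        have := sin_rpow_le h (a := s.re - 2) (by linarith)
        gcongr

theorem pow_le_two {θ : ℝ} (h : θ ∈ II) {a : ℝ} (ha : 0 ≤ a) : θ ^ a ≤ 2 ^ a :=
  Real.rpow_le_rpow h.1.le (lt_two h).le ha

theorem SolFam.F_bound (H : SolFam lam c c' G A C) {θ : ℝ} (h : θ ∈ II) {s : ℂ} (hs : A + 2 ≤ s.re) (i : ι) :
    ‖ff s θ * c i θ / ((Real.sin θ : ℝ) : ℂ) ^ 2‖ ≤ θ ^ (s.re - 2) * ‖c i θ‖ := by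
  have h1 : ff s θ * c i θ / ((Real.sin θ : ℝ) : ℂ) ^ 2 = ff s θ / ((Real.sin θ : ℝ) : ℂ) ^ 2 * c i θ := by ring
  rw [h1, norm_mul]
  exact mul_le_mul_of_nonneg_right (ff_div_bound h (by linarith [H.A0])) (norm_nonneg _)

theorem SolFam.sum_bound (H : SolFam lam c c' G A C) {θ : ℝ} (h : θ ∈ II) {s : ℂ} (hs : A + 2 ≤ s.re) :
    θ ^ (s.re - 2) * ∑' i, ‖c i θ‖ ≤ C * 2 ^ (s.re - 2 - A) := by
  calc θ ^ (s.re - 2) * ∑' i, ‖c i θ‖ ≤ θ ^ (s.re - 2) * (C * θ ^ (-A)) :=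
        mul_le_mul_of_nonneg_left (H.b1 θ h) (Real.rpow_nonneg h.1.le _)
    _ = C * θ ^ (s.re - 2 - A) := by
        rw [show s.re - 2 - A = (s.re - 2) + (-A) by ring, Real.rpow_add h.1]
        ring
    _ ≤ C * 2 ^ (s.re - 2 - A) := by
        have := pow_le_two h (a := s.re - 2 - A) (by linarith)
        have := H.Cn
        gcongr

theorem sub_II {θ₀ : ℝ} (h0 : θ₀ ∈ II) {θ : ℝ} (h : θ ∈ Ioo 0 θ₀) : θ ∈ II := ⟨h.1, h.2.trans h0.2⟩

theorem SolFam.cont_c (H : SolFam lam c c' G A C) (i : ι) : ContinuousOn (c i) II :=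
  fun θ h => (H.d1 i θ h).continuousAt.continuousWithinAt

theorem cont_ff {s : ℂ} (hs : 0 < s.re) : ContinuousOn (fun θ => ff s θ) II :=
  fun _ h => (ff_hasDeriv h hs).continuousAt.continuousWithinAt

theorem cont_sin2 : ContinuousOn (fun θ : ℝ => ((Real.sin θ : ℝ) : ℂ) ^ 2) II := by fun_prop

theorem SolFam.cont_F (H : SolFam lam c c' G A C) {s : ℂ} (hs : 0 < s.re) (i : ι) :
    ContinuousOn (fun θ => ff s θ * c i θ / ((Real.sin θ : ℝ) : ℂ) ^ 2) II := by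
  refine ((cont_ff hs).mul (H.cont_c i)).div cont_sin2 (fun θ h => ?_)
  have hS : ((Real.sin θ : ℝ) : ℂ) ≠ 0 := by exact_mod_cast (sin_pos' h).ne'
  positivity

theorem SolFam.F_int (H : SolFam lam c c' G A C) {θ₀ : ℝ} (h0 : θ₀ ∈ II) {s : ℂ} (hs : A + 2 ≤ s.re) (i : ι) :
    IntegrableOn (fun θ => ff s θ * c i θ / ((Real.sin θ : ℝ) : ℂ) ^ 2) (Ioo 0 θ₀) := by
  have hs0 : 0 < s.re := by linarith [H.A0]
  refine ⟨?_, .restrict_of_bounded (C := C * 2 ^ (s.re - 2 - A)) (by simp) ?_⟩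
  · exact ((H.cont_F hs0 i).mono fun θ h => sub_II h0 h).aestronglyMeasurable measurableSet_Ioo
  · refine (ae_restrict_iff' measurableSet_Ioo).mpr (ae_of_all _ fun θ h => ?_)
    have hII := sub_II h0 h
    refine (H.F_bound hII hs i).trans ?_
    refine (mul_le_mul_of_nonneg_left ?_ (Real.rpow_nonneg h.1.le _)).trans (H.sum_bound hII hs)
    exact (H.s1 θ hII).le_tsum i fun _ _ => norm_nonneg _

theorem SolFam.each (H : SolFam lam c c' G A C) {θ₀ : ℝ} (h0 : θ₀ ∈ II) {s : ℂ} (hs : A + 2 ≤ s.re) (i : ι) :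
    ww c c' i s θ₀ = (lam i - s * (1 - s)) * ∫ θ in Ioo 0 θ₀, ff s θ * c i θ / ((Real.sin θ : ℝ) : ℂ) ^ 2 := by
  have hA := H.A0
  have hC := H.Cn
  have hs0 : 0 < s.re := by linarith
  have hlim : Tendsto (ww c c' i s) (𝓝[>] 0) (𝓝 0) := by
    have hb : ∀ᶠ θ in 𝓝[>] (0 : ℝ), ‖ww c c' i s θ‖ ≤ (‖s‖ + 2) * C * θ := by
      have hev : ∀ᶠ θ in 𝓝[>] (0 : ℝ), θ ∈ Ioo (0 : ℝ) 1 := Ioo_mem_nhdsGT one_pos
      filter_upwards [hev] with θ hθ
      have hII : θ ∈ II := ⟨hθ.1, by linarith [hθ.2, Real.pi_gt_three]⟩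
      have hS := sin_pos' hII
      have e1 : ‖ff s θ‖ ≤ θ ^ s.re := by
        calc ‖ff s θ‖ ≤ 2 / s.re * Real.sin θ ^ s.re := ff_norm_le hII hs0
          _ ≤ 1 * θ ^ s.re := by
              have h1 : 2 / s.re ≤ 1 := by rw [div_le_one hs0]; linarith
              have h2 := sin_rpow_le hII hs0.le
              have h3 : 0 ≤ Real.sin θ ^ s.re := by positivity
              exact mul_le_mul h1 h2 h3 zero_le_one
          _ = _ := one_mul _
      have e2 : ‖fp s θ‖ ≤ ‖s‖ * θ ^ (s.re - 1) := by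
        calc ‖fp s θ‖ ≤ ‖s‖ * (2 / s.re) * (Real.sin θ ^ s.re / Real.sin θ) := fp_norm_le hII hs0
          _ = ‖s‖ * ((2 / s.re) * Real.sin θ ^ (s.re - 1)) := by
              rw [Real.rpow_sub_one hS.ne']
              ring
          _ ≤ ‖s‖ * (1 * θ ^ (s.re - 1)) := by
              have h1 : 2 / s.re ≤ 1 := by rw [div_le_one hs0]; linarith
              have h2 := sin_rpow_le hII (a := s.re - 1) (by linarith)
              have h3 : 0 ≤ Real.sin θ ^ (s.re - 1) := by positivity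
              exact mul_le_mul_of_nonneg_left (mul_le_mul h1 h2 h3 zero_le_one) (norm_nonneg _)
          _ = _ := by ring
      have hpow : ∀ a : ℝ, 1 ≤ a - A → θ ^ a * θ ^ (-A) ≤ θ := by
        intro a ha
        rw [← Real.rpow_add hθ.1]
        calc θ ^ (a + -A) ≤ θ ^ (1 : ℝ) := Real.rpow_le_rpow_of_exponent_ge hθ.1 hθ.2.le (by linarith)
          _ = θ := Real.rpow_one θ
      have k1 := H.b1i hII i
      have k2 := H.b2i hII i
      have p1 : 0 ≤ θ ^ s.re := Real.rpow_nonneg hθ.1.le _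
      have p2 : 0 ≤ θ ^ (s.re - 1) := Real.rpow_nonneg hθ.1.le _
      have p3 : 0 ≤ θ ^ (-A) := Real.rpow_nonneg hθ.1.le _
      calc ‖ww c c' i s θ‖ ≤ ‖fp s θ * c i θ‖ + ‖ff s θ * c' i θ‖ := norm_sub_le _ _
        _ ≤ ‖s‖ * θ ^ (s.re - 1) * (C * θ ^ (-A)) + θ ^ s.re * (C * θ ^ (-A)) := by
            rw [norm_mul, norm_mul]
            gcongr
        _ = ‖s‖ * C * (θ ^ (s.re - 1) * θ ^ (-A)) + C * (θ ^ s.re * θ ^ (-A)) := by ring
        _ ≤ ‖s‖ * C * θ + C * θ := by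
            have q1 := hpow (s.re - 1) (by linarith)
            have q2 := hpow s.re (by linarith)
            have := norm_nonneg s
            gcongr
        _ ≤ (‖s‖ + 2) * C * θ := by nlinarith [hθ.1, mul_nonneg hC hθ.1.le]
    refine squeeze_zero_norm' hb ?_
    have : Tendsto (fun θ : ℝ => (‖s‖ + 2) * C * θ) (𝓝 0) (𝓝 ((‖s‖ + 2) * C * 0)) :=
      tendsto_id.const_mul _
    rw [mul_zero] at this
    exact this.mono_left nhdsWithin_le_nhds
  have hcont : Tendsto (ww c c' i s) (𝓝[<] θ₀) (𝓝 (ww c c' i s θ₀)) :=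
    (ww_deriv H h0 hs0 i).continuousAt.tendsto.mono_left nhdsWithin_le_nhds
  have hint : IntervalIntegrable (fun θ => (lam i - s * (1 - s)) * (ff s θ * c i θ / ((Real.sin θ : ℝ) : ℂ) ^ 2))
      volume 0 θ₀ := by
    rw [intervalIntegrable_iff_integrableOn_Ioo_of_le h0.1.le]
    exact (H.F_int h0 hs i).const_mul _
  have := intervalIntegral.integral_eq_sub_of_hasDerivAt_of_tendsto h0.1
    (fun θ hθ => ww_deriv H (sub_II h0 hθ) hs0 i) hint hlim hcont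
  rw [sub_zero] at this
  rw [← this, intervalIntegral.integral_of_le h0.1.le, integral_Ioc_eq_integral_Ioo, integral_const_mul]

theorem den_ne {s : ℂ} (h1 : 1 / 2 < s.re) (h2 : 0 < s.im) (l : ℝ) : (l : ℂ) - s * (1 - s) ≠ 0 := by
  intro h
  have h3 := congrArg Complex.im h
  simp only [Complex.sub_im, Complex.ofReal_im, Complex.mul_im, Complex.one_im, Complex.sub_re, Complex.one_re,
    Complex.zero_im] at h3
  have h4 : s.im * (2 * s.re - 1) = 0 := by linarith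
  rcases mul_eq_zero.mp h4 with h5 | h5 <;> linarith

theorem den_ge {s : ℂ} (l : ℝ) : s.im * (2 * s.re - 1) ≤ ‖(l : ℂ) - s * (1 - s)‖ := by
  refine le_trans ?_ (Complex.abs_im_le_norm _)
  refine le_trans (le_of_eq ?_) (le_abs_self _)
  simp only [Complex.sub_im, Complex.ofReal_im, Complex.mul_im, Complex.one_im, Complex.sub_re, Complex.one_re]
  ring

theorem SolFam.sum_eq [Countable ι] (H : SolFam lam c c' G A C) {θ₀ : ℝ} (h0 : θ₀ ∈ II) {s : ℂ}
    (hs : A + 2 ≤ s.re) (him : 0 < s.im) :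
    ∑' i, ww c c' i s θ₀ / ((lam i : ℂ) - s * (1 - s))
      = ∫ θ in Ioo 0 θ₀, ff s θ * G θ / ((Real.sin θ : ℝ) : ℂ) ^ 2 := by
  have hA := H.A0
  have h1 : ∀ i, ww c c' i s θ₀ / ((lam i : ℂ) - s * (1 - s))
      = ∫ θ in Ioo 0 θ₀, ff s θ * c i θ / ((Real.sin θ : ℝ) : ℂ) ^ 2 := by
    intro i
    rw [H.each h0 hs i, mul_div_cancel_left₀ _ (den_ne (by linarith) him (lam i))]
  simp_rw [h1]
  have hsum : Summable fun i => ∫ θ in Ioo 0 θ₀, ‖ff s θ * c i θ / ((Real.sin θ : ℝ) : ℂ) ^ 2‖ := by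
    refine summable_of_sum_le (c := ∫ _θ in Ioo 0 θ₀, C * 2 ^ (s.re - 2 - A)) (fun i => ?_) (fun u => ?_)
    · exact integral_nonneg fun _ => norm_nonneg _
    · rw [← integral_finsetSum _ fun i _ => (H.F_int h0 hs i).norm]
      refine setIntegral_mono_on (integrable_finsetSum _ fun i _ => (H.F_int h0 hs i).norm)
        (integrableOn_const (by simp)) measurableSet_Ioo (fun θ h => ?_)
      have hII := sub_II h0 h
      calc ∑ i ∈ u, ‖ff s θ * c i θ / ((Real.sin θ : ℝ) : ℂ) ^ 2‖ ≤ ∑ i ∈ u, θ ^ (s.re - 2) * ‖c i θ‖ :=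
            Finset.sum_le_sum fun i _ => H.F_bound hII hs i
        _ = θ ^ (s.re - 2) * ∑ i ∈ u, ‖c i θ‖ := by rw [Finset.mul_sum]
        _ ≤ θ ^ (s.re - 2) * ∑' i, ‖c i θ‖ :=
            mul_le_mul_of_nonneg_left ((H.s1 θ hII).sum_le_tsum u fun _ _ => norm_nonneg _)
              (Real.rpow_nonneg h.1.le _)
        _ ≤ _ := H.sum_bound hII hs
  have h2 := hasSum_integral_of_summable_integral_norm (fun i => H.F_int h0 hs i) hsum
  rw [h2.tsum_eq]
  refine setIntegral_congr_fun measurableSet_Ioo (fun θ h => ?_)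
  have hII := sub_II h0 h
  have h3 := ((H.hG θ hII).mul_left (ff s θ)).div_const (((Real.sin θ : ℝ) : ℂ) ^ 2)
  exact h3.tsum_eq

/-- the quadrant -/
def QQ : Set ℂ := {s | 1 / 2 < s.re ∧ 0 < s.im}

theorem QQ_open : IsOpen QQ :=
  (isOpen_lt continuous_const Complex.continuous_re).inter (isOpen_lt continuous_const Complex.continuous_im)

theorem QQ_conn : IsPreconnected QQ := by
  have h1 : Convex ℝ QQ := by
    have h2 : QQ = {s : ℂ | 1 / 2 < s.re} ∩ {s : ℂ | 0 < s.im} := rfl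
    rw [h2]
    exact (convex_halfSpace_re_gt _).inter (convex_halfSpace_im_gt _)
  exact h1.isPreconnected

theorem SolFam.diff_L [Countable ι] (H : SolFam lam c c' G A C) {θ₀ : ℝ} (h0 : θ₀ ∈ II) :
    DifferentiableOn ℂ (fun s => ∑' i, ww c c' i s θ₀ / ((lam i : ℂ) - s * (1 - s))) QQ := by
  intro s hs
  obtain ⟨hs1, hs2⟩ := hs
  set a : ℝ := (s.re - 1 / 2) / 2 with ha
  set b : ℝ := s.im / 2 with hb
  have ha0 : 0 < a := by rw [ha]; linarith
  have hb0 : 0 < b := by rw [hb]; linarith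
  set U : Set ℂ := ({z : ℂ | 1 / 2 + a < z.re} ∩ {z : ℂ | b < z.im}) ∩ {z : ℂ | ‖z‖ < ‖s‖ + 1} with hU
  have hUo : IsOpen U :=
    ((isOpen_lt continuous_const Complex.continuous_re).inter (isOpen_lt continuous_const Complex.continuous_im)).inter
      (isOpen_lt continuous_norm continuous_const)
  have hsU : s ∈ U := ⟨⟨by simp only [mem_ofPred_eq, ha]; linarith, by simp only [mem_ofPred_eq, hb]; linarith⟩,
    by simp⟩
  have hUQ : ∀ z ∈ U, z ∈ QQ := fun z hz => ⟨by linarith [hz.1.1.out], by linarith [hz.1.2.out]⟩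
  have hS := sin_pos' h0
  have key : DifferentiableOn ℂ (fun s => ∑' i, ww c c' i s θ₀ / ((lam i : ℂ) - s * (1 - s))) U := by
    refine Complex.differentiableOn_tsum_of_summable_norm
      (u := fun i => ((‖s‖ + 1) * (4 * (1 / Real.sin θ₀)) * ‖c i θ₀‖ + 4 * ‖c' i θ₀‖) / (b * (2 * a))) ?_ ?_ hUo ?_
    · exact (((H.s1 θ₀ h0).mul_left _).add ((H.s2 θ₀ h0).mul_left _)).div_const _
    · intro i
      refine DifferentiableOn.div ?_ ?_ ?_
      · have hsub : U ⊆ {z | 0 < z.re} := fun z hz => by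
          have := (hUQ z hz).1
          simp only [mem_ofPred_eq]
          linarith
        exact ((fp_diff h0).mono hsub |>.mul_const _).sub ((ff_diff h0).mono hsub |>.mul_const _)
      · fun_prop
      · intro z hz
        exact den_ne (hUQ z hz).1 (hUQ z hz).2 _
    · intro i z hz
      have hzQ := hUQ z hz
      have hz0 : 0 < z.re := by linarith [hzQ.1]
      have hz3 : ‖z‖ ≤ ‖s‖ + 1 := hz.2.out.le
      have hr : 2 / z.re ≤ 4 := by
        rw [div_le_iff₀ hz0]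
        linarith [hzQ.1]
      have hsr : Real.sin θ₀ ^ z.re ≤ 1 := Real.rpow_le_one hS.le (Real.sin_le_one _) hz0.le
      have hsr0 : 0 ≤ Real.sin θ₀ ^ z.re := Real.rpow_nonneg hS.le _
      have e1 : ‖ff z θ₀‖ ≤ 4 := by
        calc ‖ff z θ₀‖ ≤ 2 / z.re * Real.sin θ₀ ^ z.re := ff_norm_le h0 hz0
          _ ≤ 4 * 1 := by gcongr
          _ = 4 := by norm_num
      have e2 : ‖fp z θ₀‖ ≤ (‖s‖ + 1) * (4 * (1 / Real.sin θ₀)) := by
        calc ‖fp z θ₀‖ ≤ ‖z‖ * (2 / z.re) * (Real.sin θ₀ ^ z.re / Real.sin θ₀) := fp_norm_le h0 hz0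
          _ ≤ (‖s‖ + 1) * 4 * (1 / Real.sin θ₀) := by gcongr
          _ = _ := by ring
      have e3 : b * (2 * a) ≤ ‖(lam i : ℂ) - z * (1 - z)‖ := by
        refine le_trans ?_ (den_ge (s := z) (lam i))
        have h4 : 1 / 2 + a < z.re := hz.1.1.out
        have h5 : b < z.im := hz.1.2.out
        have h6 : 2 * a ≤ 2 * z.re - 1 := by linarith
        exact mul_le_mul h5.le h6 (by positivity) (by linarith)
      rw [norm_div]
      have e4 : ‖ww c c' i z θ₀‖ ≤ (‖s‖ + 1) * (4 * (1 / Real.sin θ₀)) * ‖c i θ₀‖ + 4 * ‖c' i θ₀‖ := by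
        calc ‖ww c c' i z θ₀‖ ≤ ‖fp z θ₀ * c i θ₀‖ + ‖ff z θ₀ * c' i θ₀‖ := norm_sub_le _ _
          _ ≤ _ := by
              rw [norm_mul, norm_mul]
              gcongr
      exact div_le_div₀ (by positivity) e4 (by positivity) e3
  exact (key.differentiableAt (hUo.mem_nhds hsU)).differentiableWithinAt

end Pool.Agent.SP
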